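import Mathlib
import Pool.Agent.Y863.AA.MulAll

/-!
# Windows which are linked by the iterates of `x ↦ 2 x + e`, for almost all `e` (helper12)

The proof of `Pool.Agent.Y863.AA.core` with short windows: the coloured Maynard-Tao theorem with a
constant below `4` in short windows (`Pool.Agent.TH899.UG.NW.exactW`), and the density Hales-Jewett
theorem (through `Pool.Agent.Y863.AA.copy`).
-/

set_option autoImplicit false

namespace Pool.Agent.H12x.WL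

open Finset Filter Pool.Agent.W25.IT Pool.Agent.Y863.AA Nat

/-- the primes `q` of the `i`-th window for which the `(j - i)`-th iterate of `x ↦ 2 x + e` is a prime
of the `j`-th window -/
def link (δ : ℝ) (N : ℕ) (e : ℤ) (i j : ℕ) : Set ℕ :=
  {q : ℕ | q.Prime ∧ (2 : ℝ) ^ i * N ≤ q ∧ (q : ℝ) ≤ (1 + δ) * (2 ^ i * N) ∧ ∃ p : ℕ, p.Prime ∧
    (2 : ℝ) ^ j * N ≤ p ∧ (p : ℝ) ≤ (1 + δ) * (2 ^ j * N) ∧
    (p : ℤ) = 2 ^ (j - i) * q + (2 ^ (j - i) - 1) * e}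

theorem link_finite (δ : ℝ) (N : ℕ) (e : ℤ) (i j : ℕ) : (link δ N e i j).Finite := by
  refine (Set.finite_le_nat ⌊(1 + δ) * ((2 : ℝ) ^ i * N)⌋₊).subset fun q hq => ?_
  exact Nat.le_floor hq.2.2.1

theorem itc_two (a : ℤ) (j : ℕ) : itc a 2 j = (2 ^ j - 1) * a := by
  have h := itc_mul a 2 j
  linarith

theorem link_ge (F : Finset ℕ) (δ : ℝ) (N : ℕ) (a : ℤ) {i j : ℕ} (hij : i ≤ j) (b b' : ℤ)
    (hb : b' - 2 ^ (j - i) * b = (2 ^ (j - i) - 1) * a)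
    (h : ∀ n ∈ F, ((2 : ℤ) ^ i * n + b).toNat.Prime ∧ ((2 : ℤ) ^ j * n + b').toNat.Prime ∧
      (2 : ℝ) ^ i * N ≤ 2 ^ i * n + b ∧ (2 : ℝ) ^ i * n + b ≤ (1 + δ) * (2 ^ i * N) ∧
      (2 : ℝ) ^ j * N ≤ 2 ^ j * n + b' ∧ (2 : ℝ) ^ j * n + b' ≤ (1 + δ) * (2 ^ j * N)) :
    F.card ≤ (link δ N a i j).ncard := by
  classical
  have hpos : ∀ (k : ℕ) (β : ℤ) (n : ℕ), ((2 : ℤ) ^ k * n + β).toNat.Prime →
      ((((2 : ℤ) ^ k * n + β).toNat : ℕ) : ℤ) = 2 ^ k * n + β := by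
    intro k β n h1
    apply Int.toNat_of_nonneg
    by_contra hneg
    push Not at hneg
    rw [Int.toNat_of_nonpos hneg.le] at h1
    exact Nat.not_prime_zero h1
  have hc : (F.image (fun n : ℕ => ((2 : ℤ) ^ i * n + b).toNat)).card = F.card := by
    apply Finset.card_image_of_injOn
    intro n hn n' hn' he
    have h1 : ((2 : ℤ) ^ i * n + b).toNat = ((2 : ℤ) ^ i * n' + b).toNat := he
    have h2 : (2 : ℤ) ^ i * n + b = 2 ^ i * n' + b := by
      rw [← hpos i b n (h n hn).1, ← hpos i b n' (h n' hn').1, h1]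
    have h3 : (2 : ℤ) ^ i * (n : ℤ) = 2 ^ i * n' := by linarith
    exact_mod_cast mul_left_cancel₀ (by positivity) h3
  rw [← hc, ← Set.ncard_coe_finset]
  refine Set.ncard_le_ncard ?_ (link_finite _ _ _ _ _)
  intro q hq
  rw [coe_image] at hq
  obtain ⟨n, hn, rfl⟩ := hq
  have hn := mem_coe.1 hn
  obtain ⟨h1, h2, h3, h4, h5, h6⟩ := h n hn
  have h7 := hpos i b n h1
  have h8 := hpos j b' n h2
  have h9 : ((((2 : ℤ) ^ i * n + b).toNat : ℕ) : ℝ) = 2 ^ i * n + b := by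
    have : ((((2 : ℤ) ^ i * n + b).toNat : ℤ) : ℝ) = ((2 ^ i * n + b : ℤ) : ℝ) := by rw [h7]
    push_cast at this ⊢
    exact_mod_cast this
  have h10 : ((((2 : ℤ) ^ j * n + b').toNat : ℕ) : ℝ) = 2 ^ j * n + b' := by
    have : ((((2 : ℤ) ^ j * n + b').toNat : ℤ) : ℝ) = ((2 ^ j * n + b' : ℤ) : ℝ) := by rw [h8]
    push_cast at this ⊢
    exact_mod_cast this
  refine ⟨h1, ?_, ?_, ((2 : ℤ) ^ j * n + b').toNat, h2, ?_, ?_, ?_⟩
  · rw [h9]; exact h3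
  · rw [h9]; exact h4
  · rw [h10]; exact h5
  · rw [h10]; exact h6
  · rw [h7, h8]
    have h11 : (2 : ℤ) ^ j = 2 ^ (j - i) * 2 ^ i := by rw [← pow_add, Nat.sub_add_cancel hij]
    rw [h11]
    linear_combination hb

/-- many primes of the `i`-th window are mapped to primes of the `j`-th window -/
def Lkd (δ η : ℝ) (N : ℕ) (e : ℤ) (i j : ℕ) : Prop :=
  (N : ℝ) ^ (1 - η) ≤ ((link δ N e i j).ncard : ℝ)

open Classical in
/-- the graph of the linked windows -/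
noncomputable def Gr (m : ℕ) (δ η : ℝ) (N : ℕ) (e : ℤ) : Finset (ℕ × ℕ) :=
  ((range (m + 1)) ×ˢ (range (m + 1))).filter (fun z => z.1 < z.2 ∧ Lkd δ η N e z.1 z.2)

/-- **The core theorem in short windows.** -/
theorem coreH : ∃ c : ℝ, 0 < c ∧ c < 1 ∧ ∀ T M : ℕ, (4 - c) * M < T → ∀ (m : ℕ) (e : Fin T → ℕ),
    StrictMono e → (∀ g, e g ≤ m) → ∀ δ : ℝ, 0 < δ → ∃ (F : Finset ℤ) (L : ℕ), 1 ≤ L ∧
    ∀ η : ℝ, 0 < η → η ≤ 1 → ∀ᶠ N : ℕ in atTop, ∀ (x l : ℤ) (G : Finset (ℕ × ℕ)), Odd x → l ≠ 0 →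
      (L : ℤ) * (|x| + |l|) ≤ N → (∀ w ∈ F, Gr m δ η N (x + l * (2 * w)) = G) →
      ∃ S : Finset (Fin T), M + 1 ≤ S.card ∧ ∀ g ∈ S, ∀ h ∈ S, g < h → (e g, e h) ∈ G := by
  classical
  obtain ⟨c, hc, hc1, hex⟩ := Pool.Agent.TH899.UG.NW.exactW
  refine ⟨c, hc, hc1, ?_⟩
  intro T M hTM m e he hem δ hδ
  have hT : 1 ≤ T := by
    have h1 : (0 : ℝ) ≤ (4 - c) * M := mul_nonneg (by linarith) (Nat.cast_nonneg _)
    have h2 : (0 : ℝ) < T := lt_of_le_of_lt h1 hTM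
    exact_mod_cast h2
  obtain ⟨δ₁, hδ₁⟩ : ∃ δ₁ : ℝ, δ₁ = min δ 1 := ⟨_, rfl⟩
  have hd0 : 0 < δ₁ := by rw [hδ₁]; exact lt_min hδ one_pos
  have hd1 : δ₁ ≤ 1 := by rw [hδ₁]; exact min_le_right _ _
  have hdδ : δ₁ ≤ δ := by rw [hδ₁]; exact min_le_left _ _
  obtain ⟨K, hK, hex⟩ := hex (1 / 8) ((1 + δ₁ / 2) / 8) le_rfl (by linarith) (by linarith) T M hT hTM
  have : Nonempty (Fin T) := ⟨⟨0, hT⟩⟩
  have : Nonempty (Fin K) := ⟨⟨0, hK⟩⟩
  obtain ⟨G₀, hG₀⟩ : ∃ G₀ : ℕ, G₀ = ⌈5 / δ₁⌉₊ + 5 := ⟨_, rfl⟩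
  have hG5 : 5 ≤ G₀ := by omega
  have hGd : 5 / δ₁ ≤ G₀ := by
    rw [hG₀]
    push_cast
    linarith [Nat.le_ceil (5 / δ₁)]
  obtain ⟨q, hq⟩ : ∃ q : ℕ, q = 2 * (T * K + 2)! := ⟨_, rfl⟩
  have hfac : 1 ≤ (T * K + 2)! := Nat.succ_le_of_lt (Nat.factorial_pos _)
  have hq1 : 1 ≤ q := by omega
  obtain ⟨P, hP⟩ : ∃ P : ℕ, P = pr 2 m := ⟨_, rfl⟩
  have hP1 : 0 < P := by rw [hP]; exact pr_pos (by norm_num) m
  -- the shape
  obtain ⟨v, hv⟩ : ∃ v : (Fin T × Fin K) × (Fin T × Fin K) → ℤ, v = fun z =>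
    if z.1.1 < z.2.1 then (P : ℤ) / gs 2 (e z.2.1 - e z.1.1) *
      (((z.2.2 : ℕ) : ℤ) - (2 : ℤ) ^ (e z.2.1 - e z.1.1) * ((z.1.2 : ℕ) : ℤ)) else 0 := ⟨_, rfl⟩
  have hej : ∀ g h : Fin T, g < h → 1 ≤ e h - e g ∧ e h - e g ≤ m := by
    intro g h hgh
    have h1 := he hgh
    have h2 := hem h
    constructor <;> omega
  refine ⟨univ.image (fun z => (((T * K + 2)! : ℕ) : ℤ) * v z), G₀ * (2 ^ m + q * (P * K)),
    Nat.mul_pos (by omega) (by positivity), fun η hη hη1 => ?_⟩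
  have htend : Tendsto (fun N : ℕ => 8 * (N + N / G₀)) atTop atTop := by
    refine tendsto_atTop.2 fun b => ?_
    filter_upwards [eventually_ge_atTop b] with X hX
    obtain ⟨z, hz⟩ : ∃ z, z = X / G₀ := ⟨_, rfl⟩
    rw [← hz]
    omega
  filter_upwards [htend.eventually (hex (2 ^ m) η hη), eventually_ge_atTop 1]
    with N₀ hN hN₀1 x l G hxO hl1 hCX hcol
  have hcolz : ∀ z, Gr m δ η N₀ (x + l * (q * v z)) = G := by
    intro z
    have h1 := hcol _ (mem_image_of_mem (fun z => (((T * K + 2)! : ℕ) : ℤ) * v z) (mem_univ z))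
    have h2 : x + l * (2 * ((((T * K + 2)! : ℕ) : ℤ) * v z)) = x + l * (q * v z) := by
      rw [hq]; push_cast; ring
    rw [h2] at h1
    exact h1
  obtain ⟨g₀, hg₀⟩ : ∃ g₀ : ℕ, g₀ = N₀ / G₀ := ⟨_, rfl⟩
  rw [← hg₀] at hN
  obtain ⟨N, hNdef⟩ : ∃ N : ℕ, N = 8 * (N₀ + g₀) := ⟨_, rfl⟩
  rw [← hNdef] at hN
  -- the forms
  obtain ⟨b, hb⟩ : ∃ b : Fin T → Fin K → ℤ, b = fun (g : Fin T) (i : Fin K) =>
    itc x 2 (e g) + l * (q * (P * ((i : ℕ) : ℤ))) := ⟨_, rfl⟩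
  have hcross : ∀ (g h : Fin T) (i k : Fin K), g < h →
      b h k - (2 : ℤ) ^ (e h - e g) * b g i =
        itc (x + l * (q * v ((g, i), (h, k)))) 2 (e h - e g) := by
    intro g h i k hgh
    have h1 := itc_sub x 2 (he hgh).le
    obtain ⟨hj1, hj2⟩ := hej g h hgh
    have h2 : (P : ℤ) = gs 2 (e h - e g) * ((P : ℤ) / gs 2 (e h - e g)) := by
      rw [hP]
      have := pr_dvd 2 m hj1 hj2
      exact (Int.mul_ediv_cancel' (by exact_mod_cast this)).symm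
    rw [hb, itc_eq (x + l * (q * v ((g, i), (h, k)))), hv]
    simp only [if_pos hgh]
    have h3 := itc_eq x 2 (e h - e g)
    rw [h3] at h1
    generalize (P : ℤ) / gs 2 (e h - e g) = R at h2 ⊢
    rw [h2]
    linear_combination h1
  have hbb0 : ∀ g i, |b g i| * G₀ ≤ N₀ := by
    intro g i
    have h1 : |b g i| ≤ (2 ^ m + q * (P * K)) * (|x| + |l|) := by
      rw [hb]
      have h3 : (1 : ℤ) ≤ 2 ^ e g := one_le_pow₀ (by norm_num)
      have h4 : (2 : ℤ) ^ e g ≤ 2 ^ m := pow_le_pow_right₀ (by norm_num) (hem g)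
      have h2 : |itc x 2 (e g)| ≤ 2 ^ m * |x| := by
        rw [itc_two, abs_mul]
        rw [abs_of_nonneg (by linarith : (0 : ℤ) ≤ 2 ^ e g - 1)]
        exact mul_le_mul_of_nonneg_right (by linarith) (abs_nonneg _)
      have h5 : |(l : ℤ) * (q * (P * ((i : ℕ) : ℤ)))| ≤ q * (P * K) * |l| := by
        rw [abs_mul, abs_of_nonneg (by positivity : (0 : ℤ) ≤ q * (P * ((i : ℕ) : ℤ))), mul_comm]
        refine mul_le_mul_of_nonneg_right ?_ (abs_nonneg _)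
        have h6 : q * (P * (i : ℕ)) ≤ q * (P * K) :=
          Nat.mul_le_mul_left _ (Nat.mul_le_mul_left _ i.2.le)
        exact_mod_cast h6
      have h7 : (0 : ℤ) ≤ |x| := abs_nonneg _
      have h8 : (0 : ℤ) ≤ |l| := abs_nonneg _
      have h9 : (0 : ℤ) ≤ 2 ^ m * |l| := by positivity
      have h10 : (0 : ℤ) ≤ q * (P * K) * |x| := by positivity
      calc |itc x 2 (e g) + l * (q * (P * ((i : ℕ) : ℤ)))| ≤ _ + _ := abs_add_le _ _
        _ ≤ 2 ^ m * |x| + q * (P * K) * |l| := add_le_add h2 h5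
        _ ≤ (2 ^ m + q * (P * K)) * (|x| + |l|) := by nlinarith
    calc |b g i| * G₀ ≤ (2 ^ m + q * (P * K)) * (|x| + |l|) * G₀ :=
          mul_le_mul_of_nonneg_right h1 (by positivity)
      _ = ((G₀ * (2 ^ m + q * (P * K)) : ℕ) : ℤ) * (|x| + |l|) := by push_cast; ring
      _ ≤ N₀ := hCX
  have hbg : ∀ g i, |b g i| ≤ g₀ := by
    intro g i
    have h1 := hbb0 g i
    have h2 : |b g i| ≤ (N₀ : ℤ) / G₀ := (Int.le_ediv_iff_mul_le (by omega)).2 h1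
    rw [hg₀]
    push_cast
    exact h2
  have hg₀N : G₀ * g₀ ≤ N₀ := by rw [hg₀]; exact Nat.mul_div_le _ _
  have hg₀N5 : 5 * g₀ ≤ N₀ := (Nat.mul_le_mul_right _ hG5).trans hg₀N
  have hg₀r : (5 : ℝ) * g₀ ≤ δ₁ * N₀ := by
    have h1 : (G₀ : ℝ) * g₀ ≤ N₀ := by exact_mod_cast hg₀N
    have h2 : 5 ≤ δ₁ * G₀ := by
      rw [div_le_iff₀ hd0] at hGd
      linarith
    have h3 : (0 : ℝ) ≤ g₀ := Nat.cast_nonneg _
    nlinarith
  have hNr : (N : ℝ) = 8 * (N₀ + g₀) := by rw [hNdef]; push_cast; ring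
  have hN0r : (1 : ℝ) ≤ N₀ := by exact_mod_cast hN₀1
  have hg0r : (0 : ℝ) ≤ g₀ := Nat.cast_nonneg _
  have hbr : ∀ g i, |(b g i : ℝ)| ≤ g₀ := by
    intro g i
    have h2 := hbg g i
    have h3 : ((|b g i| : ℤ) : ℝ) ≤ g₀ := by exact_mod_cast h2
    rwa [Int.cast_abs] at h3
  have hpowle : ∀ g : Fin T, (1 : ℤ) ≤ (2 : ℤ) ^ e g ∧ (2 : ℤ) ^ e g ≤ (2 : ℤ) ^ m := by
    intro g
    exact ⟨one_le_pow₀ (by norm_num), pow_le_pow_right₀ (by norm_num) (hem g)⟩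
  have hvalue : ∀ g i, ∀ y : ℝ, (N : ℝ) / 16 ≤ y →
      (N : ℝ) / 30 ≤ (((2 : ℤ) ^ e g : ℤ) : ℝ) * y + (b g i : ℝ) := by
    intro g i y hy
    have h1 := abs_le.1 (hbr g i)
    have h2 : (1 : ℝ) ≤ (((2 : ℤ) ^ e g : ℤ) : ℝ) := by exact_mod_cast (hpowle g).1
    have h3 : y ≤ (((2 : ℤ) ^ e g : ℤ) : ℝ) * y := le_mul_of_one_le_left (by
      have : (0 : ℝ) ≤ (N : ℝ) / 16 := by positivity
      linarith) h2
    have h4 : (5 : ℝ) * g₀ ≤ N₀ := by exact_mod_cast hg₀N5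
    rw [hNr] at hy ⊢
    linarith [h1.1]
  obtain ⟨S, σ, hS, hcard⟩ := hN (fun g _ => (2 : ℤ) ^ e g) b
    (fun g i => by have := (hpowle g).1; omega)
    (fun g i => by
      rw [abs_of_nonneg (by have := (hpowle g).1; omega)]
      have := (hpowle g).2
      push_cast
      exact this)
    (fun g i => by
      have h1 := hbg g i
      have h2 : (g₀ : ℤ) ≤ N := by
        have : g₀ ≤ N := by omega
        exact_mod_cast this
      have h3 : (0 : ℤ) ≤ N := Nat.cast_nonneg _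
      linarith)
    (fun g i y hy _ => hvalue g i y hy)
    (by
      -- injectivity
      have hlt : ∀ (g h : Fin T) (i k : Fin K), g < h →
          ((2 : ℤ) ^ e g, b g i) ≠ ((2 : ℤ) ^ e h, b h k) := by
        intro g h i k hgh heq
        obtain ⟨h1, h2⟩ := Prod.ext_iff.1 heq
        simp only at h1 h2
        have h3 := he hgh
        have h4 : (2 : ℤ) ^ e g < 2 ^ e h := pow_lt_pow_right₀ (by norm_num) h3
        linarith
      rintro ⟨g, i⟩ ⟨h, k⟩ heq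
      simp only at heq
      rcases lt_trichotomy g h with hgh | hgh | hgh
      · exact absurd heq (hlt g h i k hgh)
      · subst hgh
        have h2 := (Prod.ext_iff.1 heq).2
        rw [hb] at h2
        simp only at h2
        have h3 := add_left_cancel h2
        have h5 : (q : ℤ) ≠ 0 := by exact_mod_cast (by omega : q ≠ 0)
        have h6 : (P : ℤ) ≠ 0 := by exact_mod_cast hP1.ne'
        have h7 := mul_left_cancel₀ h6 (mul_left_cancel₀ h5 (mul_left_cancel₀ hl1 h3))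
        have h8 : i = k := Fin.ext (by exact_mod_cast h7)
        rw [h8]
      · exact absurd heq.symm (hlt h g k i hgh))
    (by
      intro p hp
      have hpp := Nat.prime_iff_prime_int.1 hp
      by_cases hpq : p ∣ q
      · have hAd : Ad x 2 := by
          refine ⟨?_, Dvd.intro_left _ rfl⟩
          rw [← Int.isCoprime_iff_gcd_eq_one]
          obtain ⟨k, hk⟩ := hxO
          exact ⟨1, -k, by rw [hk]; ring⟩
        obtain ⟨w, hw⟩ := adE_two e x hAd p hp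
        refine ⟨w, fun g i hdv => hw g ?_⟩
        have h1 : (p : ℤ) ∣ l * (q * (P * ((i : ℕ) : ℤ))) :=
          Dvd.dvd.mul_left (Dvd.dvd.mul_right (by exact_mod_cast hpq) _) _
        have h2 : (2 : ℤ) ^ e g * w + b g i =
            ((2 : ℤ) ^ e g * w + itc x 2 (e g)) + l * (q * (P * ((i : ℕ) : ℤ))) := by
          rw [hb]; ring
        rw [h2] at hdv
        exact (dvd_add_left h1).1 hdv
      · have hpd : ¬ p ∣ 2 := fun h => hpq (by rw [hq]; exact Dvd.dvd.mul_right h _)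
        have hpK : T * K < p := by
          by_contra hle
          push Not at hle
          apply hpq
          rw [hq]
          exact Dvd.dvd.mul_left (Nat.dvd_factorial hp.pos (by omega)) _
        obtain ⟨w, hw⟩ := avoid (ι := Fin T × Fin K) (fun z => (2 : ℤ) ^ e z.1)
          (fun z => b z.1 z.2) hp (by
            intro z hz
            exact hpd (by exact_mod_cast hpp.dvd_of_dvd_pow hz)) (by
            rw [Fintype.card_prod, Fintype.card_fin, Fintype.card_fin]; exact hpK)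
        exact ⟨w, fun g i => hw (g, i)⟩)
  -- the clique
  refine ⟨S, hS, fun g hg h hh hgh => ?_⟩
  rw [← hcolz ((g, σ g), (h, σ h))]
  refine mem_filter.2 ⟨mem_product.2 ⟨mem_range.2 (by have := hem g; omega),
    mem_range.2 (by have := hem h; omega)⟩, he hgh, ?_⟩
  have hNN : (N₀ : ℝ) ^ (1 - η) ≤ (N : ℝ) ^ (1 - η) :=
    Real.rpow_le_rpow (by positivity) (by rw [hNr]; linarith) (by linarith)
  refine hNN.trans (hcard.trans ?_)
  rw [Nat.cast_le]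
  have hcr := hcross g h (σ g) (σ h) hgh
  rw [itc_two] at hcr
  refine link_ge _ δ N₀ _ (he hgh).le (b g (σ g)) (b h (σ h)) hcr ?_
  intro y hy
  obtain ⟨hyI, hy1, hy2, hy3⟩ := mem_filter.1 hy
  have hwin : ∀ (g : Fin T) (i : Fin K), (2 : ℝ) ^ e g * N₀ ≤ 2 ^ e g * y + b g i ∧
      (2 : ℝ) ^ e g * y + b g i ≤ (1 + δ) * (2 ^ e g * N₀) := by
    intro g i
    have h1 := abs_le.1 (hbr g i)
    have h2 : (1 : ℝ) ≤ (2 : ℝ) ^ e g := one_le_pow₀ (by norm_num)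
    have h3 : (N₀ : ℝ) + g₀ ≤ y := by rw [hNr] at hy1; linarith
    have h4 : (y : ℝ) ≤ (1 + δ₁ / 2) * (N₀ + g₀) := by rw [hNr] at hy2; linarith
    have h5 : (g₀ : ℝ) ≤ 2 ^ e g * g₀ := le_mul_of_one_le_left hg0r h2
    have h6 : (0 : ℝ) < (2 : ℝ) ^ e g := by positivity
    constructor
    · have h7 := mul_le_mul_of_nonneg_left h3 h6.le
      linarith [h1.1]
    · have h7 := mul_le_mul_of_nonneg_left h4 h6.le
      have h8 : (1 + δ₁ / 2) * ((N₀ : ℝ) + g₀) + g₀ ≤ (1 + δ) * N₀ := by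
        have h9 : δ₁ / 2 * g₀ ≤ 1 / 2 * g₀ := mul_le_mul_of_nonneg_right (by linarith) hg0r
        have h10 : δ₁ * (N₀ : ℝ) ≤ δ * N₀ := mul_le_mul_of_nonneg_right hdδ (by positivity)
        linarith
      have h9 := mul_le_mul_of_nonneg_left h8 h6.le
      have h10 : (2 : ℝ) ^ e g * y + b g i ≤ (2 : ℝ) ^ e g * ((1 + δ₁ / 2) * ((N₀ : ℝ) + g₀) + g₀) := by
        linarith [h1.2]
      refine h10.trans (h9.trans (le_of_eq ?_))
      ring
  exact ⟨hy3 g hg, hy3 h hh, (hwin g (σ g)).1, (hwin g (σ g)).2, (hwin h (σ h)).1,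
    (hwin h (σ h)).2⟩

end Pool.Agent.H12x.WL
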