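import Mathlib
import Pool.Agent.H12x.WL.Core

/-!
# The iterates of `x ↦ 2 x - 1` on the natural numbers (helper12)
-/

set_option autoImplicit false

namespace Pool.Agent.H12x.WL

/-- the map `x ↦ 2 x - 1` -/
def SN (x : ℕ) : ℕ := 2 * x - 1

theorem SN_iter (k x : ℕ) (hx : 1 ≤ x) : (SN^[k] x : ℕ) = 2 ^ k * (x - 1) + 1 := by
  induction k with
  | zero => simp; omega
  | succ k ih =>
    rw [Function.iterate_succ_apply', ih]
    unfold SN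
    rw [pow_succ]
    have : 2 * (2 ^ k * (x - 1) + 1) = 2 ^ k * 2 * (x - 1) + 2 := by ring
    omega

theorem link_SN (δ : ℝ) (N i j : ℕ) : link δ N (-1) i j =
    {q : ℕ | q.Prime ∧ ((2 : ℝ) ^ i * N ≤ q ∧ (q : ℝ) ≤ (1 + δ) * (2 ^ i * N)) ∧
      (SN^[j - i] q).Prime ∧ ((2 : ℝ) ^ j * N ≤ (SN^[j - i] q : ℕ) ∧
        ((SN^[j - i] q : ℕ) : ℝ) ≤ (1 + δ) * (2 ^ j * N))} := by
  ext q
  unfold link
  simp only [Set.mem_ofPred_eq]
  have hz : q.Prime → ∀ k, ((SN^[k] q : ℕ) : ℤ) = 2 ^ k * q + (2 ^ k - 1) * (-1) := by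
    intro hq k
    have h1 := SN_iter k q hq.one_lt.le
    rw [h1]
    push_cast [Nat.cast_sub hq.one_lt.le]
    ring
  constructor
  · rintro ⟨h1, h2, h3, p, h4, h5, h6, h7⟩
    rw [← hz h1] at h7
    have h8 : p = SN^[j - i] q := by exact_mod_cast h7
    subst h8
    exact ⟨h1, ⟨h2, h3⟩, h4, h5, h6⟩
  · rintro ⟨h1, ⟨h2, h3⟩, h4, h5, h6⟩
    exact ⟨h1, h2, h3, _, h4, h5, h6, hz h1 _⟩

end Pool.Agent.H12x.WL
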