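import Mathlib
import Pool.Agent.Y826.ZG.CritLB
import Pool.Agent.H95R2.BG.LCriterion
import Pool.Agent.Y876.HS.Mom
import Pool.Agent.Y876.FF.Crit

/-! The criterion `Pool.Agent.Y876.FF.critl2` (helper41, helper876) in the window `(X, 2.72 X]`, in which
the sieve weights are supported (helper12). -/

set_option autoImplicit false

open Finset Filter MeasureTheory
open scoped ContDiff

namespace Pool.Agent.H12x.WL.FF

open Pool.Agent.H378R2 Pool.Agent.H95R2.BG.LF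
open Pool.Agent.H95R2.BG hiding ww zz qq prodv
open Pool.Agent.Y826.Z (GoodT tp Ev sum_box_A)
open Pool.Agent.Y826.ZG
open Pool.Agent.Y876.HS (moment NN_ge_log)
open Pool.Agent.Y876.FF (CC)

/-- the good integers in the window -/
noncomputable def goodW {K : ℕ} (A B : Fin K → ℕ) (X : ℝ) : Finset ℕ :=
  (goodL A B (3 * X)).filter (fun n : ℕ => X < n ∧ (n : ℝ) ≤ 68 / 25 * X)

/-- `Y826.ZG.S_CRITL` with the number `X / (log X) ^ C` of good integers -/
def S_CRITL3 : Prop := ∀ {K0 N1 M R : ℕ}, 0 < N1 → M ≤ 2 * N1 → R < 2 * N1 →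
    ∀ (F : (Fin (K0 + 1) → ℕ) → ℝ), (∀ c, F c ≠ 0 → rad c ≤ R + 1) →
    ∀ (S : Finset (Fin K0 → ℕ)), S ⊆ Box K0 M → (∀ i, ∀ c ∈ Box K0 M, UU M F i c ≠ 0 → c ∈ S) →
    ∀ (r : ℕ) (μ : Fin r → ℝ), (∀ l, 0 ≤ μ l) → ∀ (α : Fin r → (Fin K0 → ℕ) → ℝ)
      (κ : (Fin K0 → ℕ) → (Fin K0 → ℕ) → ℝ),
    (∀ Y : (Fin K0 → ℕ) → ℝ, ∑ c ∈ S, ∑ c' ∈ S, κ c c' * (Y c * Y c') ≤
      (∑ c ∈ S, Y c) ^ 2 + ∑ l, μ l * (∑ c ∈ S, α l c * Y c) ^ 2) →
    (∀ c ∈ S, ∀ c' ∈ S, κ c c' ≠ 0 → Ev N1 c c') →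
    (4 * N1 * ∑ c ∈ Box (K0 + 1) M, F c ^ 2 <
      ∑ i, ∑ c ∈ S, (κ c c - 4 * ∑ l, μ l * (α l c ^ 2 / (2 - (rad c : ℝ) / N1))) * UU M F i c ^ 2) →
    ∀ (A B : Fin (K0 + 1) → ℕ), AdmissibleL A B →
    ∀ᶠ X : ℝ in atTop, X / Real.log X ^ CC (K0 + 1) ≤ ((goodW A B X).card : ℝ)

/-- the criterion with coefficients which depend on the cells, for linear forms -/
theorem critl3 (hP2 : S_P2L) : S_CRITL3 := by
  classical
  intro K0 N1 M R hN1 hM hR F hF S hS hU r μ hμ α κ hpsd hκ hcrit A B hadm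
  -- notation
  set SF : ℝ := ∑ c ∈ Box (K0 + 1) M, F c ^ 2 with hSF
  have hSF0 : 0 ≤ SF := Finset.sum_nonneg fun c _ => sq_nonneg _
  obtain ⟨Sq, hSq⟩ : ∃ Sq : Fin (K0 + 1) → ℝ, ∀ i, Sq i =
      ∑ c ∈ S, κ c c * UU M F i c ^ 2 := ⟨_, fun _ => rfl⟩
  obtain ⟨Sz, hSz⟩ : ∃ Sz : Fin r → Fin (K0 + 1) → ℝ, ∀ l i, Sz l i =
      ∑ c ∈ S, α l c ^ 2 / (2 - (rad c : ℝ) / N1) * UU M F i c ^ 2 :=
    ⟨_, fun _ _ => rfl⟩
  obtain ⟨Z, hZ⟩ : ∃ Z : ℝ, Z = ∑ i, ∑ l, μ l * Sz l i := ⟨_, rfl⟩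
  have hcrit' : N1 * SF + Z < (∑ i, Sq i) / 4 := by
    have h1 : ∀ i, ∑ c ∈ S, (κ c c -
        4 * ∑ l, μ l * (α l c ^ 2 / (2 - (rad c : ℝ) / N1))) * UU M F i c ^ 2 =
        Sq i - 4 * ∑ l, μ l * Sz l i := by
      intro i
      simp only [sub_mul, Finset.sum_sub_distrib, hSq i, hSz]
      congr 1
      simp only [Finset.mul_sum, Finset.sum_mul]
      rw [Finset.sum_comm]
      refine Finset.sum_congr rfl fun l _ => Finset.sum_congr rfl fun c _ => ?_
      ring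
    rw [Finset.sum_congr rfl fun i _ => h1 i, Finset.sum_sub_distrib, ← Finset.mul_sum, ← hZ] at hcrit
    linarith
  -- choice of κ₀
  obtain ⟨κ₀, hκ0, hκ₀⟩ : ∃ κ₀ : ℝ, 0 < κ₀ ∧ (1 + κ₀) * (N1 * SF + Z) < (∑ i, Sq i) / 4 := by
    have hc : Continuous fun x : ℝ => (1 + x) * (N1 * SF + Z) := by fun_prop
    have h1 : ∀ᶠ x in nhds (0 : ℝ), (1 + x) * (N1 * SF + Z) < (∑ i, Sq i) / 4 := by
      have h2 := hc.tendsto 0
      simp only [add_zero, one_mul] at h2
      exact h2.eventually_lt_const hcrit'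
    have h3 : ∀ᶠ x in nhdsWithin (0 : ℝ) (Set.Ioi 0), (1 + x) * (N1 * SF + Z) < (∑ i, Sq i) / 4 :=
      h1.filter_mono nhdsWithin_le_nhds
    obtain ⟨x, hx1, hx2⟩ := (h3.and self_mem_nhdsWithin).exists
    exact ⟨x, hx2, hx1⟩
  obtain ⟨f, β, hf, hβ⟩ := cells_exist N1 M hN1 hM κ₀ hκ0
  obtain ⟨ψ, hψ⟩ := psis_exist N1 hN1 κ₀ hκ0
  have hβ0 : 0 < β := hf.pos
  have hB0 : 0 < β ^ K0 := pow_pos hβ0 _
  -- choice of δ
  obtain ⟨δ, hδ, hδ8, hδg⟩ : ∃ δ : ℝ, 0 < δ ∧ δ < 1 / 8 ∧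
      (1 + δ) * (β ^ (K0 + 1) * SF + δ) +
        (1 + δ) * (∑ i, ∑ l, μ l * (β ^ K0 * ((1 + κ₀) * Sz l i) + δ)) <
      ∑ i, ((1 / 4 - δ) * (β ^ K0 * Sq i) - δ) := by
    have hc1 : Continuous fun x : ℝ => (1 + x) * (β ^ (K0 + 1) * SF + x) +
        (1 + x) * (∑ i, ∑ l, μ l * (β ^ K0 * ((1 + κ₀) * Sz l i) + x)) := by fun_prop
    have hc2 : Continuous fun x : ℝ => ∑ i, ((1 / 4 - x) * (β ^ K0 * Sq i) - x) := by fun_prop
    have h0 : (1 + (0 : ℝ)) * (β ^ (K0 + 1) * SF + 0) +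
        (1 + (0 : ℝ)) * (∑ i, ∑ l, μ l * (β ^ K0 * ((1 + κ₀) * Sz l i) + 0)) <
        ∑ i, ((1 / 4 - (0 : ℝ)) * (β ^ K0 * Sq i) - 0) := by
      have e1 : ∑ i, ∑ l, μ l * (β ^ K0 * ((1 + κ₀) * Sz l i) + 0) = β ^ K0 * ((1 + κ₀) * Z) := by
        rw [hZ]
        simp only [Finset.mul_sum]
        refine Finset.sum_congr rfl fun i _ => Finset.sum_congr rfl fun l _ => ?_
        ring
      have e2 : ∑ i, ((1 / 4 - (0 : ℝ)) * (β ^ K0 * Sq i) - 0) = β ^ K0 * ((∑ i, Sq i) / 4) := by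
        rw [Finset.sum_div, Finset.mul_sum]
        refine Finset.sum_congr rfl fun i _ => ?_
        ring
      rw [e1, e2, pow_succ]
      have h1 : β * SF ≤ (1 + κ₀) * N1 * SF := mul_le_mul_of_nonneg_right hβ hSF0
      have h2 : β * SF + (1 + κ₀) * Z < (∑ i, Sq i) / 4 := by
        calc β * SF + (1 + κ₀) * Z ≤ (1 + κ₀) * N1 * SF + (1 + κ₀) * Z := by linarith
          _ = (1 + κ₀) * (N1 * SF + Z) := by ring
          _ < _ := hκ₀
      have h3 := mul_lt_mul_of_pos_left h2 hB0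
      calc (1 + (0 : ℝ)) * (β ^ K0 * β * SF + 0) + (1 + (0 : ℝ)) * (β ^ K0 * ((1 + κ₀) * Z))
          = β ^ K0 * (β * SF + (1 + κ₀) * Z) := by ring
        _ < _ := h3
    have h1 := (hc1.tendsto 0).eventually_lt (hc2.tendsto 0) h0
    have h3 := h1.filter_mono (nhdsWithin_le_nhds (s := Set.Ioi (0 : ℝ)))
    have h4 : ∀ᶠ x in nhdsWithin (0 : ℝ) (Set.Ioi 0), x < 1 / 8 :=
      (gt_mem_nhds (by norm_num : (0 : ℝ) < 1 / 8)).filter_mono nhdsWithin_le_nhds
    obtain ⟨x, ⟨hx1, hx2⟩, hx3⟩ := ((h3.and h4).and self_mem_nhdsWithin).exists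
    exact ⟨x, hx3, hx2, hx1⟩
  obtain ⟨gap, hgap⟩ : ∃ gap : ℝ, gap = ∑ i, ((1 / 4 - δ) * (β ^ K0 * Sq i) - δ) -
    ((1 + δ) * (β ^ (K0 + 1) * SF + δ) +
        (1 + δ) * (∑ i, ∑ l, μ l * (β ^ K0 * ((1 + κ₀) * Sz l i) + δ))) := ⟨_, rfl⟩
  have hgap0 : 0 < gap := by rw [hgap]; linarith
  -- choice of D
  obtain ⟨D1, hD1⟩ := lim_wwL hN1 hM hR hf F hF δ hδ hδ8 δ hδ
  obtain ⟨D2, hD2⟩ := lim_qq_cL hP2 hN1 hf F S hS κ hκ δ hδ hδ8 δ hδ
  choose D3 hD3 using fun l => lim_zz_cL hR hf hψ F hF S hS (α l) δ hδ hδ8 δ hδ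
  obtain ⟨D, hD⟩ : ∃ D, D = D1 + D2 + ∑ l, D3 l + (∑ i, ∑ j, A i * B j + ∑ i, A i) := ⟨_, rfl⟩
  have hDl : ∀ l, D3 l ≤ D := by
    intro l
    have : D3 l ≤ ∑ l, D3 l := Finset.single_le_sum (f := D3) (fun _ _ => Nat.zero_le _) (mem_univ l)
    omega
  have hsep : SepL D A B := critL_sep A B hadm.1 hadm.2.1 D (by omega)
  obtain ⟨a, ha⟩ := critL_class A B hadm.2.2 D
  obtain ⟨a0, ha0⟩ : ∃ a0 : ℕ, a0 = ∑ i, A i := ⟨_, rfl⟩
  have hAa0 : ∀ i, A i ≤ a0 := fun i => by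
    rw [ha0]; exact Finset.single_le_sum (f := A) (fun _ _ => Nat.zero_le _) (mem_univ i)
  have ha01 : 1 ≤ a0 := (hadm.1 0).trans (hAa0 0)
  have ha01' : (1 : ℝ) ≤ a0 := by exact_mod_cast ha01
  have hK1 : (0 : ℝ) < ((K0 + 1 : ℕ) : ℝ) := by positivity
  obtain ⟨c3, hc3⟩ : ∃ c3 : ℝ, c3 = gap / (((K0 + 1 : ℕ) : ℝ) * (1 + δ)) := ⟨_, rfl⟩
  have hc30 : 0 < c3 := by rw [hc3]; positivity
  -- the main inequality
  · have evP := pointwise_cL hR hf hψ F hF S hS hU r μ hμ α κ hpsd δ hδ hδ8 D A B hadm.1 a0 hAa0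
    have evW := hD1 D (by omega) A B hsep a
    have evQ : ∀ᶠ X : ℝ in atTop, ∀ i, _ :=
      eventually_all.2 fun i => hD2 D (by omega) A B hsep i a (ha i)
    have evZ : ∀ᶠ X : ℝ in atTop, ∀ i l, _ :=
      eventually_all.2 fun i => eventually_all.2 fun l => hD3 l D (hDl l) A B hsep i a
    have evN := NN_pos δ (by linarith) D (K0 + 1)
    have evN2 := NN_ge_log δ (by linarith) D (K0 + 1)
    have evL := critL_log a0 ha01 δ hδ
    have evU := moment hf F δ D a A B hadm.1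
    have evB : ∀ᶠ X : ℝ in atTop, ((∑ i, B i : ℕ) : ℝ) + 3 ≤ X := eventually_ge_atTop _
    have evT : ∀ᶠ X : ℝ in atTop, 1 / c3 ^ 2 ≤ Real.log X :=
      Real.tendsto_log_atTop.eventually_ge_atTop _
    filter_upwards [evP, evW, evQ, evZ, evN, evN2, evL, evU, evB, evT] with X hP hW hQ hZZ hN hN2 hL hU hB hT
    have hB0' : (0 : ℝ) ≤ ((∑ i, B i : ℕ) : ℝ) := Nat.cast_nonneg _
    have hX3 : (3 : ℝ) ≤ X := by linarith
    have hX0 : 0 < X := by linarith
    have hlogX : 0 < Real.log X := Real.log_pos (by linarith)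
    have h4X : (1 : ℝ) ≤ 4 * a0 * X := by nlinarith
    have hlog4 : 0 ≤ Real.log (4 * a0 * X) := Real.log_nonneg h4X
    obtain ⟨LG, hLG⟩ : ∃ LG : ℝ, LG = Real.log (4 * a0 * X) := ⟨_, rfl⟩
    rw [← hLG] at hlog4 hL
    obtain ⟨CC1, hCC⟩ : ∃ CC1 : ℝ, CC1 = ((K0 + 1 : ℕ) : ℝ) * LG := ⟨_, rfl⟩
    have hCC0 : 0 ≤ CC1 := by rw [hCC]; positivity
    obtain ⟨om, hom⟩ : ∃ om : ℕ → ℝ, ∀ n, om n = nu X (WD D) a n * ww δ D X f M F A B n ^ 2 := ⟨_, fun _ => rfl⟩
    have hom0 : ∀ n, 0 ≤ om n := fun n => by rw [hom]; exact mul_nonneg (nu_nonneg _ _ _ _) (sq_nonneg _)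
    -- the pointwise inequality, summed over i and multiplied by ν
    have hpt : ∀ n ∈ Icc 1 ⌊3 * X⌋₊,
        ∑ i, (nu X (WD D) a n * (th (A i * n + B i) * qqcL δ D X f M F A B i S κ n) -
          LG * ∑ l, μ l * (nu X (WD D) a n * zzcL δ D X f ψ M F A B i S (α l) n ^ 2)) ≤
        LG * (nu X (WD D) a n * ww δ D X f M F A B n ^ 2) +
          (if n ∈ goodW A B X then CC1 * om n else 0) := by
      intro n hn
      have hn1 : 1 ≤ n := (Finset.mem_Icc.1 hn).1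
      have hn3 : (n : ℝ) ≤ 3 * X := by
        have := (Finset.mem_Icc.1 hn).2
        exact (Nat.le_floor_iff (by linarith)).1 this
      have hite : 0 ≤ (if n ∈ goodW A B X then CC1 * om n else 0) := by
        split_ifs
        · exact mul_nonneg hCC0 (hom0 n)
        · exact le_rfl
      by_cases hnX : (n : ℝ) ≤ X
      · have h0 : nu X (WD D) a n = 0 := by
          unfold nu
          split_ifs
          · apply Phi_eq_zero_of_le (by positivity)
            rw [div_le_one hX0]; exact hnX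
          · rfl
        simp only [h0, zero_mul, mul_zero, Finset.sum_const_zero, sub_zero, zero_add]
        exact hite
      · push Not at hnX
        by_cases hnE : 68 / 25 * X < n
        · have h0 : nu X (WD D) a n = 0 := by
            unfold nu
            split_ifs
            · apply Phi_eq_zero_of_ge
              rw [le_div_iff₀ hX0]
              have := Real.exp_one_lt_d9
              nlinarith
            · rfl
          simp only [h0, zero_mul, mul_zero, Finset.sum_const_zero, sub_zero, zero_add]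
          exact hite
        push Not at hnE
        have hnu := nu_nonneg X (WD D) a n
        have hnu1 : nu X (WD D) a n ≤ 1 := by
          unfold nu
          split_ifs
          · exact Phi_le_one _
          · exact zero_le_one
        have hthi : ∀ i, th (A i * n + B i) ≤ LG := by
          intro i
          unfold th
          split_ifs with hp
          · rw [hLG]
            apply Real.log_le_log
            · have := hp.pos
              exact_mod_cast this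
            · have h1 : B i ≤ ∑ i, B i :=
                Finset.single_le_sum (f := B) (fun _ _ => Nat.zero_le _) (mem_univ i)
              have h2 : (B i : ℝ) ≤ ((∑ i, B i : ℕ) : ℝ) := by exact_mod_cast h1
              have h3 : (A i : ℝ) ≤ a0 := by exact_mod_cast hAa0 i
              have h5 : (A i : ℝ) * n ≤ a0 * (3 * X) :=
                mul_le_mul h3 hn3 (Nat.cast_nonneg _) (Nat.cast_nonneg _)
              have h6 : 1 * X ≤ (a0 : ℝ) * X := mul_le_mul_of_nonneg_right ha01' hX0.le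
              have h7 : ((A i * n + B i : ℕ) : ℝ) = (A i : ℝ) * n + B i := by push_cast; ring
              rw [h7]
              linarith
          · exact hlog4
        have hww0 : 0 ≤ nu X (WD D) a n * ww δ D X f M F A B n ^ 2 :=
          mul_nonneg hnu (sq_nonneg _)
        have hth : (∑ i, th (A i * n + B i)) * (nu X (WD D) a n * ww δ D X f M F A B n ^ 2) ≤
            LG * (nu X (WD D) a n * ww δ D X f M F A B n ^ 2) +
              (if n ∈ goodW A B X then CC1 * om n else 0) := by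
          by_cases hg : n ∈ goodW A B X
          · rw [if_pos hg]
            have h1 : ∑ i, th (A i * n + B i) ≤ ((K0 + 1 : ℕ) : ℝ) * LG := by
              calc _ ≤ ∑ _i : Fin (K0 + 1), LG := Finset.sum_le_sum fun i _ => hthi i
                _ = _ := by rw [Finset.sum_const, Finset.card_univ, Fintype.card_fin, nsmul_eq_mul]
            have h3 : (∑ i, th (A i * n + B i)) * (nu X (WD D) a n * ww δ D X f M F A B n ^ 2) ≤ CC1 * om n := by
              rw [hCC, hom]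
              exact mul_le_mul_of_nonneg_right h1 hww0
            have h4 : 0 ≤ LG * (nu X (WD D) a n * ww δ D X f M F A B n ^ 2) :=
              mul_nonneg hlog4 hww0
            linarith
          · rw [if_neg hg, add_zero]
            refine mul_le_mul_of_nonneg_right ?_ hww0
            apply critL_sum_th (fun i => A i * n + B i) LG hlog4 _ hthi
            intro i j hij hi hj
            apply hg
            unfold goodW goodL
            rw [Finset.mem_filter, Finset.mem_filter]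
            exact ⟨⟨hn, i, j, hij, hi, hj⟩, hnX, hnE⟩
        calc ∑ i, (nu X (WD D) a n * (th (A i * n + B i) * qqcL δ D X f M F A B i S κ n) -
              LG * ∑ l, μ l * (nu X (WD D) a n * zzcL δ D X f ψ M F A B i S (α l) n ^ 2))
            = ∑ i, nu X (WD D) a n * (th (A i * n + B i) * qqcL δ D X f M F A B i S κ n -
              LG * ∑ l, μ l * zzcL δ D X f ψ M F A B i S (α l) n ^ 2) := by
              refine Finset.sum_congr rfl fun i _ => ?_
              have : ∑ l, μ l * (nu X (WD D) a n * zzcL δ D X f ψ M F A B i S (α l) n ^ 2) =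
                  nu X (WD D) a n * ∑ l, μ l * zzcL δ D X f ψ M F A B i S (α l) n ^ 2 := by
                rw [Finset.mul_sum]
                refine Finset.sum_congr rfl fun l _ => ?_
                ring
              rw [this]; ring
          _ ≤ ∑ i, nu X (WD D) a n * (th (A i * n + B i) * ww δ D X f M F A B n ^ 2) := by
              refine Finset.sum_le_sum fun i _ => ?_
              rw [hLG]
              exact mul_le_mul_of_nonneg_left (hP n hnX hn3 i) hnu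
          _ = (∑ i, th (A i * n + B i)) * (nu X (WD D) a n * ww δ D X f M F A B n ^ 2) := by
              rw [Finset.sum_mul]
              refine Finset.sum_congr rfl fun i _ => ?_
              ring
          _ ≤ _ := hth
    have hsum := Finset.sum_le_sum hpt
    rw [Finset.sum_add_distrib, ← Finset.mul_sum, Finset.sum_comm] at hsum
    have hgsub : (Icc 1 ⌊3 * X⌋₊).filter (fun n => n ∈ goodW A B X) = goodW A B X := by
      ext n
      rw [Finset.mem_filter]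
      exact ⟨fun h => h.2, fun h => ⟨by
        unfold goodW goodL at h
        exact (Finset.mem_filter.1 (Finset.mem_filter.1 h).1).1, h⟩⟩
    have hcard : ∑ n ∈ Icc 1 ⌊3 * X⌋₊, (if n ∈ goodW A B X then CC1 * om n else 0) ≤
        CC1 * ∑ n ∈ goodW A B X, om n := by
      rw [← Finset.sum_filter, hgsub, Finset.mul_sum]
    have hCS : (∑ n ∈ goodW A B X, om n) ^ 2 ≤
        ((goodW A B X).card : ℝ) * (X * Real.log X ^ (Pool.Agent.Y876.HS.EE (K0 + 1) + 1)) := by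
      have h1 := sq_sum_le_card_mul_sum_sq (s := goodW A B X) (f := om)
      refine h1.trans (mul_le_mul_of_nonneg_left ?_ (Nat.cast_nonneg _))
      calc ∑ n ∈ goodW A B X, om n ^ 2
          ≤ ∑ n ∈ Icc 1 ⌊3 * X⌋₊, om n ^ 2 := by
            apply Finset.sum_le_sum_of_subset_of_nonneg
            · rw [← hgsub]; exact Finset.filter_subset _ _
            · intro n _ _; exact sq_nonneg _
        _ = ∑ n ∈ Icc 1 ⌊3 * X⌋₊, (nu X (WD D) a n * ww δ D X f M F A B n ^ 2) ^ 2 :=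
            Finset.sum_congr rfl fun n _ => by rw [hom]
        _ ≤ _ := hU
    -- abbreviations
    obtain ⟨N, hNdef⟩ : ∃ N : ℝ, N = NN δ D X (K0 + 1) := ⟨_, rfl⟩
    obtain ⟨G, hG⟩ : ∃ G : ℝ, G = ∑ n ∈ goodW A B X, om n := ⟨_, rfl⟩
    have hG0 : 0 ≤ G := by rw [hG]; exact Finset.sum_nonneg fun n _ => hom0 n
    obtain ⟨AA, hA⟩ : ∃ AA : ℝ, AA = ∑ n ∈ Icc 1 ⌊3 * X⌋₊,
        nu X (WD D) a n * ww δ D X f M F A B n ^ 2 := ⟨_, rfl⟩
    obtain ⟨Q, hQd⟩ : ∃ Q : Fin (K0 + 1) → ℝ, ∀ i, Q i = ∑ n ∈ Icc 1 ⌊3 * X⌋₊,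
        nu X (WD D) a n * (th (A i * n + B i) * qqcL δ D X f M F A B i S κ n) := ⟨_, fun _ => rfl⟩
    obtain ⟨V, hV⟩ : ∃ V : Fin (K0 + 1) → Fin r → ℝ, ∀ i l, V i l = ∑ n ∈ Icc 1 ⌊3 * X⌋₊,
        nu X (WD D) a n * zzcL δ D X f ψ M F A B i S (α l) n ^ 2 := ⟨_, fun _ _ => rfl⟩
    rw [← hA] at hsum
    rw [← hG] at hcard hCS
    have hA0 : 0 ≤ AA := by
      rw [hA]
      exact Finset.sum_nonneg fun n _ => mul_nonneg (nu_nonneg _ _ _ _) (sq_nonneg _)
    have hV0 : ∀ i l, 0 ≤ V i l := by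
      intro i l
      rw [hV]
      exact Finset.sum_nonneg fun n _ => mul_nonneg (nu_nonneg _ _ _ _) (sq_nonneg _)
    have hsum2 : ∑ i, (Q i - LG * ∑ l, μ l * V i l) ≤ LG * AA + CC1 * G := by
      refine le_trans (le_of_eq ?_) (hsum.trans (by linarith))
      refine Finset.sum_congr rfl fun i _ => ?_
      rw [Finset.sum_sub_distrib, hQd i, ← Finset.mul_sum, Finset.sum_comm]
      congr 2
      refine Finset.sum_congr rfl fun l _ => ?_
      rw [hV, Finset.mul_sum]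
    rw [← hNdef] at hN hN2
    have hW' : AA ≤ N * (β ^ (K0 + 1) * SF + δ) := by rw [hA, hNdef]; exact hW
    have hQ' : ∀ i, N * Real.log X * ((1 / 4 - δ) * (β ^ K0 * Sq i) - δ) ≤ Q i := by
      intro i; rw [hNdef, hSq i, hQd i]; exact hQ i
    have hZ' : ∀ i l, V i l ≤ N * (β ^ K0 * ((1 + κ₀) * Sz l i) + δ) := by
      intro i l; rw [hNdef, hSz l i, hV i l]; exact hZZ i l
    have hNL : 0 < N * Real.log X := mul_pos hN hlogX
    have h1 : LG * AA ≤ N * Real.log X * ((1 + δ) * (β ^ (K0 + 1) * SF + δ)) := by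
      calc LG * AA ≤ ((1 + δ) * Real.log X) * AA := mul_le_mul_of_nonneg_right hL hA0
        _ ≤ ((1 + δ) * Real.log X) * (N * (β ^ (K0 + 1) * SF + δ)) :=
          mul_le_mul_of_nonneg_left hW' (by positivity)
        _ = _ := by ring
    have h2 : ∀ i l, LG * (μ l * V i l) ≤
        N * Real.log X * ((1 + δ) * (μ l * (β ^ K0 * ((1 + κ₀) * Sz l i) + δ))) := by
      intro i l
      have hm := mul_nonneg (hμ l) (hV0 i l)
      calc LG * (μ l * V i l) ≤ ((1 + δ) * Real.log X) * (μ l * V i l) :=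
            mul_le_mul_of_nonneg_right hL hm
        _ ≤ ((1 + δ) * Real.log X) * (μ l * (N * (β ^ K0 * ((1 + κ₀) * Sz l i) + δ))) :=
          mul_le_mul_of_nonneg_left (mul_le_mul_of_nonneg_left (hZ' i l) (hμ l)) (by positivity)
        _ = _ := by ring
    have h3 : N * Real.log X * ∑ i, ((1 / 4 - δ) * (β ^ K0 * Sq i) - δ) ≤ ∑ i, Q i := by
      rw [Finset.mul_sum]
      exact Finset.sum_le_sum fun i _ => hQ' i
    have h4 : ∑ i, (LG * ∑ l, μ l * V i l) ≤
        N * Real.log X * ((1 + δ) * ∑ i, ∑ l, μ l * (β ^ K0 * ((1 + κ₀) * Sz l i) + δ)) := by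
      rw [Finset.mul_sum, Finset.mul_sum]
      refine Finset.sum_le_sum fun i _ => ?_
      rw [Finset.mul_sum, Finset.mul_sum, Finset.mul_sum]
      exact Finset.sum_le_sum fun l _ => h2 i l
    rw [Finset.sum_sub_distrib] at hsum2
    have h5 : N * Real.log X * gap ≤ CC1 * G := by
      rw [hgap, mul_sub, mul_add]
      linarith
    -- the lower bound for the number of good integers
    have h6 : CC1 ≤ (((K0 + 1 : ℕ) : ℝ) * (1 + δ)) * Real.log X := by
      rw [hCC]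
      calc ((K0 + 1 : ℕ) : ℝ) * LG ≤ ((K0 + 1 : ℕ) : ℝ) * ((1 + δ) * Real.log X) :=
            mul_le_mul_of_nonneg_left hL hK1.le
        _ = _ := by ring
    have h7 : N * gap * Real.log X ≤ (((K0 + 1 : ℕ) : ℝ) * (1 + δ)) * G * Real.log X := by
      calc N * gap * Real.log X = N * Real.log X * gap := by ring
        _ ≤ CC1 * G := h5
        _ ≤ ((((K0 + 1 : ℕ) : ℝ) * (1 + δ)) * Real.log X) * G :=
          mul_le_mul_of_nonneg_right h6 hG0
        _ = _ := by ring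
    have h8 : N * gap ≤ (((K0 + 1 : ℕ) : ℝ) * (1 + δ)) * G :=
      le_of_mul_le_mul_right h7 hlogX
    have h9 : c3 * N ≤ G := by
      rw [hc3, div_mul_eq_mul_div, div_le_iff₀ (by positivity)]
      linarith
    obtain ⟨ℓ, hℓ⟩ : ∃ ℓ : ℝ, ℓ = Real.log X := ⟨_, rfl⟩
    rw [← hℓ] at hT hCS hN2 hlogX ⊢
    have h10 : c3 * (X / ℓ ^ (K0 + 1 + 1)) ≤ G := (mul_le_mul_of_nonneg_left hN2 hc30.le).trans h9
    have h11 : (c3 * (X / ℓ ^ (K0 + 1 + 1))) ^ 2 ≤
        ((goodW A B X).card : ℝ) * (X * ℓ ^ (Pool.Agent.Y876.HS.EE (K0 + 1) + 1)) :=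
      (pow_le_pow_left₀ (by positivity) h10 2).trans hCS
    have h12 : 1 ≤ c3 ^ 2 * ℓ := by
      rw [div_le_iff₀ (by positivity)] at hT
      linarith
    have hM0 : 0 < X * ℓ ^ (Pool.Agent.Y876.HS.EE (K0 + 1) + 1) := by positivity
    refine le_of_mul_le_mul_right ?_ hM0
    refine le_trans ?_ h11
    have e1 : X / ℓ ^ CC (K0 + 1) * (X * ℓ ^ (Pool.Agent.Y876.HS.EE (K0 + 1) + 1)) = X ^ 2 / (ℓ * (ℓ ^ (K0 + 1 + 1)) ^ 2) := by
      have e2 : ℓ ^ CC (K0 + 1) = ℓ ^ (Pool.Agent.Y876.HS.EE (K0 + 1) + 1) * (ℓ * (ℓ ^ (K0 + 1 + 1)) ^ 2) := by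
        rw [← pow_mul, ← pow_succ', ← pow_add]
        congr 1
        unfold CC
        ring
      rw [e2]
      field_simp
    have e3 : (c3 * (X / ℓ ^ (K0 + 1 + 1))) ^ 2 = (c3 ^ 2 * ℓ) * (X ^ 2 / (ℓ * (ℓ ^ (K0 + 1 + 1)) ^ 2)) := by
      field_simp
    rw [e1, e3]
    exact le_mul_of_one_le_left (by positivity) h12

end Pool.Agent.H12x.WL.FF
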