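import Mathlib
import Pool.Agent.H12x.WL.Core

/-!
# Linked windows: every long progression and almost all `e` (helper12)
-/

set_option autoImplicit false

namespace Pool.Agent.H12x.WL

open Finset Filter

/-- every set of windows contains many pairwise linked windows -/
def Good (c δ η : ℝ) (m N : ℕ) (e : ℤ) : Prop :=
  ∀ A : Finset ℕ, A ⊆ range (m + 1) → ∃ S ⊆ A, (A.card : ℝ) ≤ (4 - c) * S.card ∧
    ∀ i ∈ S, ∀ j ∈ S, i < j → Lkd δ η N e i j

theorem shape : ∃ c : ℝ, 0 < c ∧ c < 1 ∧ ∀ (m : ℕ) (δ : ℝ), 0 < δ → ∃ (F : Finset ℤ) (L : ℕ),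
    1 ≤ L ∧ (0 : ℤ) ∈ F ∧ ∀ η : ℝ, 0 < η → η ≤ 1 → ∀ᶠ N : ℕ in atTop, ∀ x l : ℤ, Odd x → l ≠ 0 →
      (L : ℤ) * (|x| + |l|) ≤ N → (∀ w ∈ F, Gr m δ η N (x + l * (2 * w)) = Gr m δ η N x) →
      Good c δ η m N x := by
  classical
  obtain ⟨c, hc, hc1, H⟩ := coreH
  refine ⟨c, hc, hc1, fun m δ hδ => ?_⟩
  have h4 : (0 : ℝ) < 4 - c := by linarith
  have key : ∀ A : Finset ℕ, ∃ (F : Finset ℤ) (L : ℕ), A ⊆ range (m + 1) → ∀ η : ℝ, 0 < η →
      η ≤ 1 → ∀ᶠ N : ℕ in atTop, ∀ x l : ℤ, Odd x → l ≠ 0 → (L : ℤ) * (|x| + |l|) ≤ N →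
      (∀ w ∈ F, Gr m δ η N (x + l * (2 * w)) = Gr m δ η N x) →
      ∃ S ⊆ A, (A.card : ℝ) ≤ (4 - c) * S.card ∧ ∀ i ∈ S, ∀ j ∈ S, i < j → Lkd δ η N x i j := by
    intro A
    by_cases hA : A ⊆ range (m + 1)
    swap
    · exact ⟨∅, 0, fun h => absurd h hA⟩
    rcases A.eq_empty_or_nonempty with rfl | hne
    · refine ⟨∅, 0, fun _ η _ _ => Eventually.of_forall fun N x l _ _ _ _ => ⟨∅, subset_rfl, ?_, ?_⟩⟩
      · simp
      · intro i hi
        exact absurd hi (notMem_empty _)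
    obtain ⟨T, hT⟩ : ∃ T, A.card = T := ⟨_, rfl⟩
    have hT1 : 1 ≤ T := by rw [← hT]; exact hne.card_pos
    obtain ⟨M, hM⟩ : ∃ M, M = ⌈(T : ℝ) / (4 - c)⌉₊ - 1 := ⟨_, rfl⟩
    have hTr : (0 : ℝ) < T := by exact_mod_cast hT1
    have hceil : 1 ≤ ⌈(T : ℝ) / (4 - c)⌉₊ := Nat.one_le_ceil_iff.2 (by positivity)
    have hM1 : (M : ℝ) + 1 = (⌈(T : ℝ) / (4 - c)⌉₊ : ℝ) := by
      have : M + 1 = ⌈(T : ℝ) / (4 - c)⌉₊ := by omega
      exact_mod_cast this
    have hTM : (4 - c) * M < T := by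
      have h1 := Nat.ceil_lt_add_one (by positivity : (0 : ℝ) ≤ (T : ℝ) / (4 - c))
      have h2 : (M : ℝ) < T / (4 - c) := by linarith
      rw [lt_div_iff₀ h4] at h2
      linarith
    have hTM2 : (T : ℝ) ≤ (4 - c) * (M + 1) := by
      have h1 := Nat.le_ceil ((T : ℝ) / (4 - c))
      rw [← hM1, div_le_iff₀ h4] at h1
      linarith
    obtain ⟨F, L, -, h⟩ := H T M hTM m (A.orderEmbOfFin hT) (A.orderEmbOfFin hT).strictMono
      (fun g => by
        have := mem_range.1 (hA (A.orderEmbOfFin_mem hT g))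
        omega) δ hδ
    refine ⟨F, L, fun _ η hη hη1 => ?_⟩
    filter_upwards [h η hη hη1] with N hN x l hx hl hL hcol
    obtain ⟨S, hS, hS2⟩ := hN x l (Gr m δ η N x) hx hl hL hcol
    refine ⟨S.image (A.orderEmbOfFin hT), ?_, ?_, ?_⟩
    · intro a ha
      obtain ⟨g, -, rfl⟩ := mem_image.1 ha
      exact A.orderEmbOfFin_mem hT g
    · rw [card_image_of_injective _ (A.orderEmbOfFin hT).injective, hT]
      refine hTM2.trans (mul_le_mul_of_nonneg_left ?_ h4.le)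
      exact_mod_cast hS
    · intro i hi j hj hij
      obtain ⟨g, hg, rfl⟩ := mem_image.1 hi
      obtain ⟨g', hg', rfl⟩ := mem_image.1 hj
      have h1 := hS2 g hg g' hg' ((A.orderEmbOfFin hT).lt_iff_lt.1 hij)
      exact (mem_filter.1 h1).2.2
  choose F L hFL using key
  refine ⟨insert 0 ((range (m + 1)).powerset.biUnion F), 1 + ∑ A ∈ (range (m + 1)).powerset, L A,
    by omega, mem_insert_self _ _, fun η hη hη1 => ?_⟩
  have h1 : ∀ᶠ N : ℕ in atTop, ∀ A ∈ (range (m + 1)).powerset, ∀ x l : ℤ, Odd x → l ≠ 0 →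
      (L A : ℤ) * (|x| + |l|) ≤ N → (∀ w ∈ F A, Gr m δ η N (x + l * (2 * w)) = Gr m δ η N x) →
      ∃ S ⊆ A, (A.card : ℝ) ≤ (4 - c) * S.card ∧ ∀ i ∈ S, ∀ j ∈ S, i < j → Lkd δ η N x i j := by
    rw [Filter.eventually_all_finset]
    intro A hA
    exact hFL A (mem_powerset.1 hA) η hη hη1
  filter_upwards [h1] with N hN x l hx hl hL hcol A hA
  refine hN A (mem_powerset.2 hA) x l hx hl ?_ fun w hw => ?_
  · refine le_trans (mul_le_mul_of_nonneg_right ?_ (by positivity)) hL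
    have h2 : L A ≤ ∑ A ∈ (range (m + 1)).powerset, L A :=
      single_le_sum (f := L) (fun _ _ => Nat.zero_le _) (mem_powerset.2 hA)
    exact_mod_cast h2.trans (Nat.le_add_left _ _)
  · exact hcol w (mem_insert_of_mem (mem_biUnion.2 ⟨A, mem_powerset.2 hA, hw⟩))

/-- van der Waerden's theorem for finite sets of integers, finite form (from Hales-Jewett) -/
theorem vdw (Γ : Type) [Finite Γ] (F : Finset ℤ) (hF : F.Nonempty) : ∃ ℓ : ℕ, 2 ≤ ℓ ∧
    ∀ χ : ℕ → Γ, ∃ k s : ℕ, 1 ≤ s ∧ s ≤ ℓ ∧ ∃ g : Γ, ∀ w ∈ F, ∃ j : ℕ, j < ℓ ∧ (j : ℤ) = k + s * w ∧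
      χ j = g := by
  classical
  obtain ⟨R, hR⟩ : ∃ R : ℕ, ∀ w ∈ F, |w| ≤ R := by
    refine ⟨F.sup Int.natAbs, fun w hw => ?_⟩
    rw [Int.abs_eq_natAbs]
    exact_mod_cast Finset.le_sup (f := Int.natAbs) hw
  obtain ⟨ι, hι, h⟩ := Combinatorics.Line.exists_mono_in_high_dimension {w : ℤ // w ∈ F} Γ
  refine ⟨2 * R * Fintype.card ι + Fintype.card ι + 2, by omega, fun χ => ?_⟩
  obtain ⟨l, g, hg⟩ := h (fun u => χ (∑ i, ((u i : ℤ) + R).toNat))
  obtain ⟨Act, hAct⟩ : ∃ Act : Finset ι, Act = univ.filter (fun i => l.idxFun i = none) := ⟨_, rfl⟩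
  obtain ⟨w₀, hw₀⟩ := hF
  have hs1 : 1 ≤ Act.card := by
    obtain ⟨i, hi⟩ := l.proper
    rw [hAct]
    exact card_pos.2 ⟨i, mem_filter.2 ⟨mem_univ _, hi⟩⟩
  have hscard : Act.card ≤ Fintype.card ι := card_le_univ _
  refine ⟨∑ i ∈ univ \ Act, (((l ⟨w₀, hw₀⟩) i : ℤ) + R).toNat + Act.card * R, Act.card, hs1,
    by omega, g, fun w hw => ?_⟩
  have hval : ∀ (w : ℤ) (hw : w ∈ F) (i : ι), |((l ⟨w, hw⟩) i : ℤ)| ≤ R :=
    fun w hw i => hR _ ((l ⟨w, hw⟩) i).2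
  refine ⟨∑ i, (((l ⟨w, hw⟩) i : ℤ) + R).toNat, ?_, ?_, hg ⟨w, hw⟩⟩
  · have h1 : ∑ i, (((l ⟨w, hw⟩) i : ℤ) + R).toNat ≤ ∑ _i : ι, 2 * R := by
      refine sum_le_sum fun i _ => ?_
      have := (abs_le.1 (hval w hw i)).2
      omega
    rw [sum_const, card_univ, smul_eq_mul] at h1
    have h2 : Fintype.card ι * (2 * R) = 2 * R * Fintype.card ι := mul_comm _ _
    omega
  · rw [← Finset.sum_sdiff (subset_univ Act)]
    have h1 : ∑ i ∈ univ \ Act, (((l ⟨w, hw⟩) i : ℤ) + R).toNat =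
        ∑ i ∈ univ \ Act, (((l ⟨w₀, hw₀⟩) i : ℤ) + R).toNat := by
      refine sum_congr rfl fun i hi => ?_
      have h2 : l.idxFun i ≠ none := by
        intro h3
        exact (mem_sdiff.1 hi).2 (by rw [hAct]; exact mem_filter.2 ⟨mem_univ _, h3⟩)
      obtain ⟨y, hy⟩ := Option.ne_none_iff_exists'.1 h2
      have h3 : ∀ x : {w : ℤ // w ∈ F}, (l x) i = y := by
        intro x
        show (l.idxFun i).getD x = y
        rw [hy]
        rfl
      rw [h3, h3]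
    have h2 : ∑ i ∈ Act, (((l ⟨w, hw⟩) i : ℤ) + R).toNat = Act.card * (w + R).toNat := by
      rw [← smul_eq_mul, ← sum_const]
      refine sum_congr rfl fun i hi => ?_
      rw [hAct, mem_filter] at hi
      show ((((l.idxFun i).getD ⟨w, hw⟩ : {w : ℤ // w ∈ F}) : ℤ) + R).toNat = _
      rw [hi.2]
      rfl
    rw [h1, h2]
    have h3 : (((w + R).toNat : ℕ) : ℤ) = w + R := by
      apply Int.toNat_of_nonneg
      have := (abs_le.1 (hR w hw)).1
      linarith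
    push_cast
    rw [h3]
    ring

/-- **Every long progression.** -/
theorem progr : ∃ c : ℝ, 0 < c ∧ c < 1 ∧ ∀ (m : ℕ) (δ : ℝ), 0 < δ →
    (∃ ℓ L : ℕ, ∀ η : ℝ, 0 < η → η ≤ 1 → ∀ᶠ N : ℕ in atTop, ∀ e₀ t : ℤ, Odd e₀ → Even t → t ≠ 0 →
      (∀ k < ℓ, (L : ℤ) * |e₀ + k * t| ≤ N) → ∃ k < ℓ, Good c δ η m N (e₀ + k * t)) ∧
    ∀ ε : ℝ, 0 < ε → ∃ L : ℕ, ∀ η : ℝ, 0 < η → η ≤ 1 → ∀ᶠ N : ℕ in atTop, ∀ (u : ℤ) (H : ℕ),
      L ≤ H → (L : ℤ) * (|u| + H) ≤ N →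
      ({e : ℤ | u < e ∧ e ≤ u + H ∧ Odd e ∧ ¬ Good c δ η m N e}.ncard : ℝ) ≤ ε * H := by
  classical
  obtain ⟨c, hc, hc1, h⟩ := shape
  refine ⟨c, hc, hc1, fun m δ hδ => ?_⟩
  obtain ⟨F, L, hL1, hF0, h⟩ := h m δ hδ
  set Γ : Type := {G : Finset (ℕ × ℕ) // G ∈ ((range (m + 1)) ×ˢ (range (m + 1))).powerset} with hΓ
  have hsubG : ∀ (η : ℝ) (N : ℕ) (e : ℤ), Gr m δ η N e ∈
      ((range (m + 1)) ×ˢ (range (m + 1))).powerset :=
    fun η N e => mem_powerset.2 (filter_subset _ _)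
  refine ⟨?_, ?_⟩
  · obtain ⟨ℓ, hℓ, hv⟩ := vdw Γ F ⟨0, hF0⟩
    refine ⟨ℓ, L * (1 + 2 * ℓ), fun η hη hη1 => ?_⟩
    filter_upwards [h η hη hη1] with N hN e₀ t he₀ ht ht0 hb
    obtain ⟨k, s, hs1, hsl, g, hg⟩ := hv (fun j => ⟨Gr m δ η N (e₀ + j * t), hsubG _ _ _⟩)
    obtain ⟨j₀, hj₀, hj₀k, hj₀g⟩ := hg 0 hF0
    have hjk : j₀ = k := by
      rw [mul_zero, add_zero] at hj₀k
      exact_mod_cast hj₀k
    subst hjk
    obtain ⟨t', ht'⟩ := ht
    refine ⟨j₀, hj₀, ?_⟩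
    refine hN (e₀ + j₀ * t) (s * t') ?_ ?_ ?_ ?_
    · obtain ⟨r, hr⟩ := he₀
      exact ⟨r + j₀ * t', by rw [hr, ht']; ring⟩
    · have h1 : (s : ℤ) ≠ 0 := by exact_mod_cast (by omega : s ≠ 0)
      have h2 : t' ≠ 0 := by
        rintro rfl
        exact ht0 (by rw [ht']; ring)
      exact mul_ne_zero h1 h2
    · have hbd : ∀ k < ℓ, ((1 + 2 * ℓ : ℕ) : ℤ) * (L * |e₀ + k * t|) ≤ N := by
        intro k hk
        refine le_trans (le_of_eq ?_) (hb k hk)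
        push_cast; ring
      have h0 := hbd j₀ hj₀
      obtain ⟨y, hy⟩ : ∃ y : ℤ, y = max |e₀ + j₀ * t| (max |e₀ + (0 : ℕ) * t| |e₀ + (1 : ℕ) * t|) :=
        ⟨_, rfl⟩
      have hyb : ((1 + 2 * ℓ : ℕ) : ℤ) * (L * y) ≤ N := by
        rw [hy]
        rcases max_choice |e₀ + j₀ * t| (max |e₀ + (0 : ℕ) * t| |e₀ + (1 : ℕ) * t|) with h1 | h1
        · rw [h1]; exact h0
        · rw [h1]
          rcases max_choice |e₀ + (0 : ℕ) * t| |e₀ + (1 : ℕ) * t| with h2 | h2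
          · rw [h2]; exact hbd 0 (by omega)
          · rw [h2]; exact hbd 1 (by omega)
      have hx : |e₀ + j₀ * t| ≤ y := by rw [hy]; exact le_max_left _ _
      have hy0 : |e₀ + (0 : ℕ) * t| ≤ y := by
        rw [hy]; exact (le_max_left _ _).trans (le_max_right _ _)
      have hy1 : |e₀ + (1 : ℕ) * t| ≤ y := by
        rw [hy]; exact (le_max_right _ _).trans (le_max_right _ _)
      have ht2 : |t'| ≤ y := by
        have h1 : 2 * |t'| ≤ 2 * y := by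
          have h2 : t = (e₀ + (1 : ℕ) * t) - (e₀ + (0 : ℕ) * t) := by push_cast; ring
          have h3 : |t| ≤ |e₀ + (1 : ℕ) * t| + |e₀ + (0 : ℕ) * t| := by
            calc |t| = |(e₀ + (1 : ℕ) * t) - (e₀ + (0 : ℕ) * t)| := by rw [← h2]
              _ ≤ _ := abs_sub _ _
          have h4 : |t| = 2 * |t'| := by
            rw [ht', ← two_mul, abs_mul]
            norm_num
          linarith
        linarith
      have hst : |(s : ℤ) * t'| ≤ ℓ * y := by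
        rw [abs_mul, abs_of_nonneg (Nat.cast_nonneg s : (0 : ℤ) ≤ s)]
        exact mul_le_mul (by exact_mod_cast hsl) ht2 (abs_nonneg _) (Nat.cast_nonneg _)
      have hy00 : 0 ≤ y := (abs_nonneg _).trans hx
      have hLy : (0 : ℤ) ≤ L * y := mul_nonneg (Nat.cast_nonneg _) hy00
      have hll : (0 : ℤ) ≤ (ℓ : ℤ) * (L * y) := mul_nonneg (Nat.cast_nonneg _) hLy
      calc (L : ℤ) * (|e₀ + j₀ * t| + |(s : ℤ) * t'|) ≤ L * (y + ℓ * y) :=
            mul_le_mul_of_nonneg_left (add_le_add hx hst) (Nat.cast_nonneg _)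
        _ = L * y + ℓ * (L * y) := by ring
        _ ≤ ((1 + 2 * ℓ : ℕ) : ℤ) * (L * y) := by push_cast; linarith
        _ ≤ N := hyb
    · intro w hw
      obtain ⟨j, hj, hjk, hjg⟩ := hg w hw
      have h1 : e₀ + (j₀ : ℤ) * t + s * t' * (2 * w) = e₀ + j * t := by
        rw [hjk, ht']; ring
      rw [h1]
      have h2 := hjg.trans hj₀g.symm
      exact congrArg Subtype.val h2
  · intro ε hε
    have : Nonempty {w : ℤ // w ∈ F} := ⟨⟨0, hF0⟩⟩
    have : Nonempty Γ := ⟨⟨∅, mem_powerset.2 (empty_subset _)⟩⟩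
    obtain ⟨n, hn, hcopy⟩ := Pool.Agent.Y863.AA.copy {w : ℤ // w ∈ F} Γ ε hε
    obtain ⟨R, hR⟩ : ∃ R : ℕ, ∀ w ∈ F, |w| ≤ R := by
      refine ⟨F.sup Int.natAbs, fun w hw => ?_⟩
      rw [Int.abs_eq_natAbs]
      exact_mod_cast Finset.le_sup (f := Int.natAbs) hw
    refine ⟨2 * (n * R) + 2 + L * (n + 1), fun η hη hη1 => ?_⟩
    filter_upwards [h η hη hη1] with N hN u H hH hHN
    by_contra hcon
    push Not at hcon
    set Bad : Finset ℤ := (Ioc u (u + H)).filter (fun e => Odd e ∧ ¬ Good c δ η m N e) with hBad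
    have hset : {e : ℤ | u < e ∧ e ≤ u + H ∧ Odd e ∧ ¬ Good c δ η m N e} = (Bad : Set ℤ) := by
      ext e
      rw [hBad, coe_filter, Set.mem_ofPred_eq, Set.mem_ofPred_eq, mem_Ioc]
      tauto
    rw [hset, Set.ncard_coe_finset] at hcon
    obtain ⟨x, l, G, hl1, hln, hx⟩ := hcopy (fun a => Odd a) 2 u
      (fun a b _ _ hab hb => by
        obtain ⟨k, hk⟩ := hab
        obtain ⟨s, hs⟩ := hb
        push_cast at hk
        exact ⟨k + s, by linarith⟩) (by norm_num) (fun w => w.1)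
      R (fun w => hR _ w.2) H ((Nat.le_div_iff_mul_le (by norm_num)).2 (by
        have h1 : n * R * 2 = 2 * (n * R) := by ring
        have h2 : 0 ≤ L * (n + 1) := Nat.zero_le _
        omega)) (by have h2 : 0 ≤ L * (n + 1) := Nat.zero_le _; omega) Bad (filter_subset _ _)
      (fun a ha => (mem_filter.1 ha).2.1)
      (fun a => ⟨Gr m δ η N a, hsubG _ _ _⟩) (by
        refine lt_of_le_of_lt (mul_le_mul_of_nonneg_left ?_ hε.le) hcon
        have h1 : (u + H - u).toNat = H := by omega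
        rw [Nat.cast_le]
        refine le_trans (Pool.Agent.Y863.AA.filt_le _ _ _) ?_
        rw [Int.card_Ioc, h1])
    have hx0 := hx ⟨0, hF0⟩
    simp only [mul_zero, add_zero] at hx0
    obtain ⟨hxB, hxG⟩ := hx0
    obtain ⟨hxI, hxO, hxN⟩ := mem_filter.1 hxB
    apply hxN
    have hxabs : |x| ≤ |u| + H := by
      have h1 := mem_Ioc.1 hxI
      rw [abs_le]
      have h2 := abs_le.1 (le_refl |u|)
      constructor
      · have : (0 : ℤ) ≤ H := Nat.cast_nonneg _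
        linarith [h2.1]
      · linarith [h2.2]
    refine hN x l hxO (by exact_mod_cast (by omega : l ≠ 0)) ?_ ?_
    · have hHn : (1 : ℤ) ≤ H := by
        have : 1 ≤ H := by
          have h2 : 0 ≤ L * (n + 1) := Nat.zero_le _
          omega
        exact_mod_cast this
      have h1 : |(l : ℤ)| ≤ n * (|u| + H) := by
        rw [abs_of_nonneg (Nat.cast_nonneg _)]
        have h2 : (l : ℤ) ≤ n := by exact_mod_cast hln
        have h3 : (1 : ℤ) ≤ |u| + H := by linarith [abs_nonneg u]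
        calc (l : ℤ) ≤ n * 1 := by linarith
          _ ≤ n * (|u| + H) := mul_le_mul_of_nonneg_left h3 (Nat.cast_nonneg _)
      calc (L : ℤ) * (|x| + |(l : ℤ)|) ≤ L * ((|u| + H) + n * (|u| + H)) :=
            mul_le_mul_of_nonneg_left (add_le_add hxabs h1) (Nat.cast_nonneg _)
        _ = ((L * (n + 1) : ℕ) : ℤ) * (|u| + H) := by push_cast; ring
        _ ≤ ((2 * (n * R) + 2 + L * (n + 1) : ℕ) : ℤ) * (|u| + H) := by
            refine mul_le_mul_of_nonneg_right ?_ (by positivity)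
            exact_mod_cast Nat.le_add_left _ _
        _ ≤ N := hHN
    · intro w hw
      have h1 := (hx ⟨w, hw⟩).2
      have h2 := h1.trans hxG.symm
      have h3 := congrArg Subtype.val h2
      push_cast at h3
      exact h3

end Pool.Agent.H12x.WL
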