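import Mathlib
import Pool.Agent.H12x.WL.Core
import Pool.Agent.TH899.UG.PairsP

/-!
# Tuples of windows which are linked by the iterates of `x ↦ 2 x - 1` (helper12)

From the coloured Maynard-Tao theorem with a constant below `4` in short windows
(`Pool.Agent.TH899.UG.NW.exactW`) and Erdos's box theorem with a power saving
(`Pool.Agent.TH899.UG.box_pow`).
-/

set_option autoImplicit false

namespace Pool.Agent.H12x.WL

open Finset Filter Pool.Agent.H362R2.CM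

/-- the `n` in the window at which the numbers `2 ^ a g * n + 1`, `g ∈ S`, are prime -/
def sim (δ : ℝ) (X : ℕ) {T : ℕ} (a : Fin T → ℕ) (S : Finset (Fin T)) : Set ℕ :=
  {n : ℕ | (X : ℝ) ≤ n ∧ (n : ℝ) ≤ (1 + δ) * X ∧ ∀ g ∈ S, (2 ^ a g * n + 1).Prime}

theorem sim_finite (δ : ℝ) (X : ℕ) {T : ℕ} (a : Fin T → ℕ) (S : Finset (Fin T)) :
    (sim δ X a S).Finite := by
  refine (Set.finite_le_nat ⌊(1 + δ) * (X : ℝ)⌋₊).subset fun n hn => ?_
  exact Nat.le_floor hn.2.1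

/-- the coloured theorem for the forms `2 ^ a * n + 1` -/
theorem hitE : ∃ c : ℝ, 0 < c ∧ c < 1 ∧ ∀ T M : ℕ, 1 ≤ T → (4 - c) * M < T → ∀ δ : ℝ, 0 < δ →
    ∃ K : ℕ, 1 ≤ K ∧ ∀ E : ℕ, ∀ η : ℝ, 0 < η → η ≤ 1 → ∀ᶠ X : ℕ in atTop,
    ∀ a : Fin T → Fin K → ℕ, (∀ g i, a g i ≤ E) →
      Function.Injective (fun x : Fin T × Fin K => a x.1 x.2) →
      ∃ (S : Finset (Fin T)) (σ : Fin T → Fin K), M + 1 ≤ S.card ∧
        (X : ℝ) ^ (1 - η) ≤ ((sim δ X (fun g => a g (σ g)) S).ncard : ℝ) := by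
  obtain ⟨c, hc, hc1, hex⟩ := Pool.Agent.TH899.UG.NW.exactW
  refine ⟨c, hc, hc1, ?_⟩
  intro T M hT hTM δ hδ
  obtain ⟨δ₁, hδ₁⟩ : ∃ δ₁ : ℝ, δ₁ = min δ 1 := ⟨_, rfl⟩
  have hd0 : 0 < δ₁ := by rw [hδ₁]; exact lt_min hδ one_pos
  have hd1 : δ₁ ≤ 1 := by rw [hδ₁]; exact min_le_right _ _
  have hdδ : δ₁ ≤ δ := by rw [hδ₁]; exact min_le_left _ _
  obtain ⟨K, hK, hex⟩ := hex (1 / 8) ((1 + δ₁) / 8) le_rfl (by linarith) (by linarith) T M hT hTM
  refine ⟨K, hK, fun E η hη hη1 => ?_⟩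
  have htend : Tendsto (fun N : ℕ => 8 * N) atTop atTop := by
    refine tendsto_atTop.2 fun b => ?_
    filter_upwards [eventually_ge_atTop b] with X hX
    omega
  filter_upwards [htend.eventually (hex (2 ^ E) η hη), eventually_ge_atTop 1] with X hX hX1
  intro a haE hinj
  have hX1r : (1 : ℝ) ≤ X := by exact_mod_cast hX1
  obtain ⟨S, σ, hS, hcard⟩ := hX (fun g i => (2 : ℤ) ^ a g i) (fun _ _ => 1)
    (fun g i => by positivity)
    (fun g i => by
      rw [abs_of_nonneg (by positivity)]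
      push_cast
      exact pow_le_pow_right₀ (by norm_num) (haE g i))
    (fun g i => by
      rw [abs_one]
      push_cast
      have : (1 : ℤ) ≤ X := by exact_mod_cast hX1
      linarith)
    (fun g i y hy _ => by
      push_cast at hy ⊢
      have h2 : (1 : ℝ) ≤ (2 : ℝ) ^ a g i := one_le_pow₀ (by norm_num)
      have h3 : y ≤ (2 : ℝ) ^ a g i * y := le_mul_of_one_le_left (by linarith) h2
      linarith)
    (by
      intro x y hxy
      apply hinj
      have h1 := (Prod.ext_iff.1 hxy).1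
      simp only at h1
      exact Int.pow_right_injective (by norm_num) h1)
    (fun p hp => ⟨0, fun g i h => by
      rw [mul_zero, zero_add] at h
      have h1 := Int.le_of_dvd one_pos h
      have h2 := hp.two_le
      omega⟩)
  refine ⟨S, σ, hS, ?_⟩
  have hNN : (X : ℝ) ^ (1 - η) ≤ ((8 * X : ℕ) : ℝ) ^ (1 - η) :=
    Real.rpow_le_rpow (by positivity) (by push_cast; linarith) (by linarith)
  refine hNN.trans (hcard.trans ?_)
  rw [Nat.cast_le, ← Set.ncard_coe_finset]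
  refine Set.ncard_le_ncard ?_ (sim_finite _ _ _ _)
  intro n hn
  obtain ⟨-, h1, h2, h3⟩ := mem_filter.1 (mem_coe.1 hn)
  push_cast at h1 h2
  refine ⟨by linarith, ?_, ?_⟩
  · have : (1 + δ₁) * (X : ℝ) ≤ (1 + δ) * X := mul_le_mul_of_nonneg_right (by linarith) (by linarith)
    linarith
  · intro g hg
    have h4 := h3 g hg
    have h5 : ((2 : ℤ) ^ a g (σ g) * n + 1).toNat = 2 ^ a g (σ g) * n + 1 := by
      have : ((2 : ℤ) ^ a g (σ g) * n + 1) = ((2 ^ a g (σ g) * n + 1 : ℕ) : ℤ) := by push_cast; rfl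
      rw [this, Int.toNat_natCast]
    rwa [h5] at h4

open Classical in
/-- **Almost all tuples of exponents**, with a power saving. -/
theorem tuples : ∃ c : ℝ, 0 < c ∧ c < 1 ∧ ∀ T M : ℕ, 1 ≤ T → (4 - c) * M < T → ∀ δ : ℝ, 0 < δ →
    ∃ C κ : ℝ, 0 < C ∧ 0 < κ ∧ κ ≤ 1 ∧ ∀ E : Finset ℕ, ∀ η : ℝ, 0 < η → η ≤ 1 →
    ∀ᶠ X : ℕ in atTop,
      (((Fintype.piFinset (fun _ : Fin T => E)).filter (fun a => ¬ ∃ S : Finset (Fin T),
        M + 1 ≤ S.card ∧ (X : ℝ) ^ (1 - η) ≤ ((sim δ X a S).ncard : ℝ))).card : ℝ) ≤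
      C * (E.card : ℝ) ^ (-κ) * (E.card : ℝ) ^ T := by
  obtain ⟨c, hc, hc1, hit⟩ := hitE
  refine ⟨c, hc, hc1, ?_⟩
  intro T M hT hTM δw hδw
  obtain ⟨K, hK, hit⟩ := hit T M hT hTM δw hδw
  obtain ⟨C₀, E₀, hC₀, hbox⟩ := Pool.Agent.TH899.UG.box_pow K T
  set δ₀ : ℝ := 1 / ((E₀ : ℝ) + 1) with hδ₀
  have hδ₀pos : 0 < δ₀ := by positivity
  have hδ₀1 : δ₀ ≤ 1 := by
    rw [hδ₀, div_le_one (by positivity)]
    have : (0 : ℝ) ≤ E₀ := Nat.cast_nonneg _
    linarith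
  set C : ℝ := 2 * C₀ + 2 * (T : ℝ) ^ 2 + 1 with hC
  have hCpos : 0 < C := by positivity
  refine ⟨C, δ₀, hCpos, hδ₀pos, hδ₀1, ?_⟩
  intro E η hη hη1
  filter_upwards [hit (E.sup id) η hη hη1] with X hX
  rcases Nat.eq_zero_or_pos E.card with hE0 | hEpos
  · have h1 : E = ∅ := card_eq_zero.1 hE0
    subst h1
    have h2 : Fintype.piFinset (fun _ : Fin T => (∅ : Finset ℕ)) = ∅ := by
      rw [← Finset.card_eq_zero, Fintype.card_piFinset]
      simp only [Finset.card_empty, prod_const, card_univ, Fintype.card_fin]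
      exact zero_pow (by omega)
    rw [h2, filter_empty, Finset.card_empty]
    simp only [Nat.cast_zero]
    positivity
  obtain ⟨N, hN⟩ : ∃ N, N = E.card := ⟨_, rfl⟩
  rw [← hN] at hEpos ⊢
  have hN0 : (0 : ℝ) < N := by exact_mod_cast hEpos
  have hN1 : (1 : ℝ) ≤ N := by exact_mod_cast hEpos
  obtain ⟨P', hP'⟩ : ∃ P' : ℝ, P' = (N : ℝ) ^ T := ⟨_, rfl⟩
  have hPpos : 0 < P' := by rw [hP']; positivity
  have hprod : ∏ _i : Fin T, ((E.card : ℕ) : ℝ) = P' := by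
    rw [prod_const, card_univ, Fintype.card_fin, ← hN, hP']
  obtain ⟨ε, hε⟩ : ∃ ε : ℝ, ε = C * (N : ℝ) ^ (-δ₀) := ⟨_, rfl⟩
  have hεpos : 0 < ε := by rw [hε]; positivity
  rw [← hε, ← hP']
  have hNδ1 : (N : ℝ) ^ (-(1 : ℝ)) ≤ (N : ℝ) ^ (-δ₀) :=
    Real.rpow_le_rpow_of_exponent_le hN1 (by linarith)
  have hNinv : (N : ℝ) ^ (-(1 : ℝ)) = 1 / N := by
    rw [Real.rpow_neg_one, one_div]
  have hεT : 2 * (T : ℝ) ^ 2 / N ≤ ε := by
    have h1 : 2 * (T : ℝ) ^ 2 ≤ C := by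
      have : 0 ≤ 2 * C₀ := by positivity
      linarith
    calc 2 * (T : ℝ) ^ 2 / N = 2 * (T : ℝ) ^ 2 * (N : ℝ) ^ (-(1 : ℝ)) := by rw [hNinv]; ring
      _ ≤ C * (N : ℝ) ^ (-δ₀) := mul_le_mul h1 hNδ1 (Real.rpow_nonneg hN0.le _) hCpos.le
      _ = ε := hε.symm
  have hεE : ε ^ (E₀ + 1) * N = C ^ (E₀ + 1) := by
    have h1 : ((N : ℝ) ^ (-δ₀)) ^ (E₀ + 1) = (N : ℝ) ^ (-(1 : ℝ)) := by
      rw [← Real.rpow_natCast, ← Real.rpow_mul hN0.le]
      congr 1
      rw [hδ₀]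
      push_cast
      field_simp
    rw [hε, mul_pow, h1, hNinv]
    field_simp
  by_contra hcon'
  have hcon := not_le.1 hcon'
  set Bad := (Fintype.piFinset (fun _ : Fin T => E)).filter (fun a => ¬ ∃ S : Finset (Fin T),
        M + 1 ≤ S.card ∧ (X : ℝ) ^ (1 - η) ≤ ((sim δw X a S).ncard : ℝ)) with hBad
  have hε1 : ε ≤ 1 := by
    by_contra hgt
    have hgt := not_le.1 hgt
    have h1 : (Bad.card : ℝ) ≤ P' := by
      have h2 : Bad.card ≤ (Fintype.piFinset (fun _ : Fin T => E)).card := card_filter_le _ _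
      rw [Fintype.card_piFinset] at h2
      rw [← hprod]
      exact_mod_cast h2
    nlinarith
  set Bad' := Bad.filter (fun f => Inj f) with hBad'
  have hni := card_not_injective_pi_le T N (fun _ : Fin T => E) (fun _ => hN.le)
  have hni' : (((Fintype.piFinset (fun _ : Fin T => E)).filter (fun φ => ¬ Inj φ)).card : ℝ) ≤
      ε / 2 * P' := by
    have h1 : (((Fintype.piFinset (fun _ : Fin T => E)).filter (fun φ => ¬ Inj φ)).card : ℝ) * N ≤
        (T : ℝ) ^ 2 * P' := by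
      rw [← hprod]
      exact_mod_cast hni
    have h2 : (((Fintype.piFinset (fun _ : Fin T => E)).filter (fun φ => ¬ Inj φ)).card : ℝ) ≤
        (T : ℝ) ^ 2 * P' / N := by
      rw [le_div_iff₀ hN0]; exact h1
    refine h2.trans ?_
    have h3 : (T : ℝ) ^ 2 * P' / N = (2 * (T : ℝ) ^ 2 / N) / 2 * P' := by ring
    rw [h3]
    exact mul_le_mul_of_nonneg_right (by linarith) hPpos.le
  have hBad'card : ε / 2 * P' ≤ (Bad'.card : ℝ) := by
    have h1 : Bad.card = Bad'.card + (Bad.filter (fun f => ¬ Inj f)).card := by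
      rw [hBad']
      exact (Finset.card_filter_add_card_filter_not _).symm
    have h2 : (Bad.filter (fun f => ¬ Inj f)).card ≤
        ((Fintype.piFinset (fun _ : Fin T => E)).filter (fun φ => ¬ Inj φ)).card := by
      apply card_le_card
      apply Finset.filter_subset_filter
      exact Finset.filter_subset _ _
    have h1' : (Bad.card : ℝ) = Bad'.card + (Bad.filter (fun f => ¬ Inj f)).card := by
      exact_mod_cast h1
    have h2' : ((Bad.filter (fun f => ¬ Inj f)).card : ℝ) ≤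
        (((Fintype.piFinset (fun _ : Fin T => E)).filter (fun φ => ¬ Inj φ)).card : ℝ) := by
      exact_mod_cast h2
    linarith
  obtain ⟨A, hA1, hA2⟩ := hbox (ε / 2) (by positivity) (by linarith) ℕ (fun _ : Fin T => E) (by
      intro _
      rw [← hN, div_le_iff₀ (by positivity)]
      have h1 : (ε / 2) ^ (E₀ + 1) * N = (C / 2) ^ (E₀ + 1) := by
        rw [div_pow, div_pow, div_mul_eq_mul_div, hεE]
      have h2 : 1 ≤ C / 2 := by
        have : 0 ≤ (T : ℝ) ^ 2 := by positivity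
        linarith
      have h3 : C₀ ≤ C / 2 := by
        have : 0 ≤ (T : ℝ) ^ 2 := by positivity
        linarith
      have h4 : C / 2 ≤ (C / 2) ^ (E₀ + 1) := le_self_pow₀ h2 (by omega)
      have h5 : (ε / 2) ^ (E₀ + 1) ≤ (ε / 2) ^ E₀ :=
        pow_le_pow_of_le_one (by positivity) (by linarith) (by omega)
      have h6 : (ε / 2) ^ (E₀ + 1) * N ≤ (ε / 2) ^ E₀ * N := mul_le_mul_of_nonneg_right h5 hN0.le
      linarith) Bad' (by
      intro f hf
      exact (mem_filter.1 (mem_filter.1 hf).1).1) (by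
      rw [hprod]
      exact hBad'card)
  have hK0 : 0 < K := hK
  have hAE : ∀ g i, A g i ∈ E := by
    intro g i
    have h1 := hA2 (fun _ => i)
    have h2 := (mem_filter.1 (mem_filter.1 h1).1).1
    rw [Fintype.mem_piFinset] at h2
    exact h2 g
  obtain ⟨S, σ, hS, hcard⟩ := hX A (fun g i => Finset.le_sup (f := id) (hAE g i)) (by
    rintro ⟨g, i⟩ ⟨g', i'⟩ h
    have hA : A g i = A g' i' := h
    by_cases hg : g = g'
    · subst hg
      rw [hA1 g hA]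
    · exfalso
      have h1 : Function.Injective _ := (mem_filter.1 (hA2 (Function.update (fun _ => i) g' i'))).2
      apply hg
      apply h1
      simp only [Function.update_self, Function.update_of_ne hg]
      exact hA)
  have h1 := (mem_filter.1 (mem_filter.1 (hA2 σ)).1).2
  exact h1 ⟨S, hS, hcard⟩

/-- many `n` in the window with `2 ^ i * n + 1` and `2 ^ j * n + 1` prime -/
def Lk (δ η : ℝ) (X i j : ℕ) : Prop :=
  (X : ℝ) ^ (1 - η) ≤ (({n : ℕ | (X : ℝ) ≤ n ∧ (n : ℝ) ≤ (1 + δ) * X ∧ (2 ^ i * n + 1).Prime ∧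
    (2 ^ j * n + 1).Prime}.ncard : ℕ) : ℝ)

theorem Lk.symm {δ η : ℝ} {X i j : ℕ} (h : Lk δ η X i j) : Lk δ η X j i := by
  unfold Lk at h ⊢
  have h1 : {n : ℕ | (X : ℝ) ≤ n ∧ (n : ℝ) ≤ (1 + δ) * X ∧ (2 ^ j * n + 1).Prime ∧
    (2 ^ i * n + 1).Prime} = {n : ℕ | (X : ℝ) ≤ n ∧ (n : ℝ) ≤ (1 + δ) * X ∧ (2 ^ i * n + 1).Prime ∧
    (2 ^ j * n + 1).Prime} := by
    ext n
    constructor
    · rintro ⟨h1, h2, h3, h4⟩
      exact ⟨h1, h2, h4, h3⟩
    · rintro ⟨h1, h2, h3, h4⟩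
      exact ⟨h1, h2, h4, h3⟩
  rw [h1]
  exact h

theorem Lk_of_sim {δ η : ℝ} {X T : ℕ} {a : Fin T → ℕ} {S : Finset (Fin T)} {g h : Fin T}
    (hg : g ∈ S) (hh : h ∈ S) (H : (X : ℝ) ^ (1 - η) ≤ ((sim δ X a S).ncard : ℝ)) :
    Lk δ η X (a g) (a h) := by
  refine H.trans ?_
  rw [Nat.cast_le]
  refine Set.ncard_le_ncard ?_ ?_
  · rintro n ⟨h1, h2, h3⟩
    exact ⟨h1, h2, h3 g hg, h3 h hh⟩
  · refine (Set.finite_le_nat ⌊(1 + δ) * (X : ℝ)⌋₊).subset fun n hn => ?_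
    exact Nat.le_floor hn.2.1

open Classical in
/-- **One third of the pairs of exponents**, with a power saving. -/
theorem pairs : ∀ δ : ℝ, 0 < δ → ∃ C κ : ℝ, 0 < κ ∧ κ ≤ 1 ∧ ∀ E : Finset ℕ, ∀ η : ℝ, 0 < η →
    η ≤ 1 → ∀ᶠ X : ℕ in atTop,
      1 / 3 * (E.card : ℝ) ^ 2 - C * (E.card : ℝ) ^ (2 - κ) ≤
        (((E ×ˢ E).filter (fun x => x.1 ≠ x.2 ∧ Lk δ η X x.1 x.2)).card : ℝ) := by
  intro δw hδw
  obtain ⟨c, hc, hc1, hT⟩ := tuples
  obtain ⟨C, δ, hC0, hδ, hδ1, hN⟩ := hT 4 1 (by norm_num) (by push_cast; linarith) δw hδw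
  refine ⟨3 / 2 * (C + 1) + 1, δ, hδ, hδ1, ?_⟩
  intro V η hη hη1
  filter_upwards [hN V η hη hη1] with X hX
  rcases Nat.eq_zero_or_pos V.card with hV0 | hVpos
  · rw [hV0]
    have h1 : ((0 : ℕ) : ℝ) ^ (2 - δ) = 0 := by
      rw [Nat.cast_zero]
      exact Real.zero_rpow (by linarith)
    rw [h1]
    simp
  have hVpos' : (0 : ℝ) < V.card := by exact_mod_cast hVpos
  have hV1 : (1 : ℝ) ≤ V.card := by exact_mod_cast hVpos
  by_contra hcon
  have hcon := not_le.1 hcon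
  set Cr : ℕ → ℕ → Prop := fun f g => f ≠ g ∧ ¬ Lk δw η X f g with hCr
  have hCs : ∀ x y, Cr x y → Cr y x := fun x y h => ⟨h.1.symm, fun h' => h.2 h'.symm⟩
  set v : ℝ := (V.card : ℝ) with hv
  have hpw : v ^ (2 - δ) = v ^ (-δ) * v ^ 2 := by
    have h1 : (2 : ℝ) - δ = -δ + 2 := by ring
    rw [h1, Real.rpow_add hVpos']
    norm_num
  have hv1 : v ≤ v ^ (2 - δ) := by
    calc v = v ^ (1 : ℝ) := (Real.rpow_one v).symm
      _ ≤ v ^ (2 - δ) := Real.rpow_le_rpow_of_exponent_le hV1 (by linarith)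
  set ε : ℝ := 3 / 2 * (C + 1) * v ^ (-δ) with hε
  have hvδ : 0 < v ^ (-δ) := Real.rpow_pos_of_pos hVpos' _
  have hεpos : 0 < ε := by positivity
  -- number of bad pairs
  have h2 : ((clq V Cr 2).card : ℝ) =
      (((V ×ˢ V).filter (fun x => x.1 ≠ x.2 ∧ ¬ Lk δw η X x.1 x.2)).card : ℝ) := by
    congr 1
    apply Finset.card_bij (fun f _ => (f 0, f 1))
    · intro f hf
      rw [mem_clq] at hf
      rw [mem_filter, mem_product]
      exact ⟨⟨hf.1 0, hf.1 1⟩, hf.2 0 1 (by decide)⟩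
    · intro f _ f' _ h
      simp only [Prod.mk.injEq] at h
      funext i
      fin_cases i
      · exact h.1
      · exact h.2
    · intro x hx
      rw [mem_filter, mem_product] at hx
      refine ⟨![x.1, x.2], ?_, by simp⟩
      rw [mem_clq]
      constructor
      · intro i
        fin_cases i
        · exact hx.1.1
        · exact hx.1.2
      · intro i j hij
        fin_cases i <;> fin_cases j
        · exact absurd rfl hij
        · exact hx.2
        · exact hCs _ _ hx.2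
        · exact absurd rfl hij
  have h3 : (((V ×ˢ V).filter (fun x => x.1 ≠ x.2 ∧ Lk δw η X x.1 x.2)).card : ℝ) +
      (((V ×ˢ V).filter (fun x => x.1 ≠ x.2 ∧ ¬ Lk δw η X x.1 x.2)).card : ℝ) = v ^ 2 - v := by
    have h4 := Finset.card_filter_add_card_filter_not
      (s := (V ×ˢ V).filter (fun x : ℕ × ℕ => x.1 ≠ x.2)) (fun x : ℕ × ℕ => Lk δw η X x.1 x.2)
    have h7 : ((V ×ˢ V).filter (fun x : ℕ × ℕ => x.1 ≠ x.2)).card = V.card * V.card - V.card := by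
      rw [← Finset.offDiag_card]
      congr 1
      ext x
      rw [mem_filter, mem_offDiag, mem_product]
      tauto
    rw [filter_filter, filter_filter, h7] at h4
    have h6 : (((V ×ˢ V).filter (fun x => x.1 ≠ x.2 ∧ Lk δw η X x.1 x.2)).card : ℝ) +
      (((V ×ˢ V).filter (fun x => x.1 ≠ x.2 ∧ ¬ Lk δw η X x.1 x.2)).card : ℝ) =
      ((V.card * V.card - V.card : ℕ) : ℝ) := by
      rw [← h4]
      push_cast
      rfl
    rw [h6, Nat.cast_sub (Nat.le_mul_self _)]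
    push_cast
    rw [hv]
    ring
  have h5 := Pool.Agent.TH899.UG.turan4 V Cr hCs hVpos ε hεpos (by
    rw [h2, ← hv, hε]
    rw [hpw] at hcon hv1
    nlinarith)
  -- bad tuples
  have h8 : ((clq V Cr 4).card : ℝ) ≤ C * v ^ (-δ) * v ^ 4 := by
    refine le_trans (Nat.cast_le.2 (card_le_card ?_)) hX
    intro f hf
    rw [mem_clq] at hf
    rw [mem_filter, Fintype.mem_piFinset]
    refine ⟨hf.1, ?_⟩
    rintro ⟨S, hS1, hS2⟩
    have hS3 : 1 < S.card := hS1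
    obtain ⟨i, hi, j, hj, hij⟩ := Finset.one_lt_card.1 hS3
    exact (hf.2 i j hij).2 (Lk_of_sim hi hj hS2)
  have h9 : 2 / 3 * ε * v ^ 4 = (C + 1) * v ^ (-δ) * v ^ 4 := by
    rw [hε]; ring
  have h10 : 0 < v ^ (-δ) * v ^ 4 := by positivity
  rw [← hv] at h5
  nlinarith

end Pool.Agent.H12x.WL
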