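import Mathlib
import Pool.Agent.H12x.WL.Tup
import Pool.Agent.H12x.WL.Fin

/-!
# Windows which are linked by the iterates of `x ↦ 2 x - 1`: multiples of almost all exponents (helper12)
-/

set_option autoImplicit false

namespace Pool.Agent.H12x.WL

open Finset Filter

/-- from simultaneous primes to linked windows -/
theorem lkd_of_sim {δ η : ℝ} (hδ : 0 < δ) {X T : ℕ} (hX : 2 / δ ≤ X) {a : Fin T → ℕ}
    {S : Finset (Fin T)} {g h : Fin T} (hg : g ∈ S) (hh : h ∈ S) (hgh : a g < a h)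
    (H : (X : ℝ) ^ (1 - η) ≤ ((sim (δ / 2) X a S).ncard : ℝ)) : Lkd δ η X (-1) (a g) (a h) := by
  classical
  refine H.trans ?_
  rw [Nat.cast_le, Set.ncard_eq_toFinset_card _ (sim_finite _ _ _ _)]
  refine link_ge _ δ X (-1) hgh.le 1 1 (by ring) ?_
  intro n hn
  rw [Set.Finite.mem_toFinset] at hn
  obtain ⟨h1, h2, h3⟩ := hn
  have hc : ∀ k : ℕ, ((2 : ℤ) ^ k * n + 1).toNat = 2 ^ k * n + 1 := by
    intro k
    have : ((2 : ℤ) ^ k * n + 1) = ((2 ^ k * n + 1 : ℕ) : ℤ) := by push_cast; rfl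
    rw [this, Int.toNat_natCast]
  have hX' : 2 ≤ δ * X := by
    rw [div_le_iff₀ hδ] at hX
    linarith
  have hw : ∀ k : ℕ, (2 : ℝ) ^ k * X ≤ 2 ^ k * n + ((1 : ℤ) : ℝ) ∧
      (2 : ℝ) ^ k * n + ((1 : ℤ) : ℝ) ≤ (1 + δ) * (2 ^ k * X) := by
    intro k
    have h4 : (1 : ℝ) ≤ (2 : ℝ) ^ k := one_le_pow₀ (by norm_num)
    have h5 : (0 : ℝ) < (2 : ℝ) ^ k := by positivity
    push_cast
    constructor
    · have := mul_le_mul_of_nonneg_left h1 h5.le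
      linarith
    · have h6 := mul_le_mul_of_nonneg_left h2 h5.le
      have h7 : 2 * 1 ≤ δ * X * (2 : ℝ) ^ k := mul_le_mul hX' h4 zero_le_one (by linarith)
      have h8 : (1 + δ) * ((2 : ℝ) ^ k * X) = (2 : ℝ) ^ k * ((1 + δ / 2) * X) + δ * X * 2 ^ k / 2 := by
        ring
      rw [h8]
      linarith
  rw [hc, hc]
  exact ⟨h3 g hg, h3 h hh, (hw _).1, (hw _).2, (hw _).1, (hw _).2⟩

open Classical in
/-- the graph of the linked windows among the windows with the exponents `s + k i`, `i ≤ m` -/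
noncomputable def GrE (m : ℕ) (δ η : ℝ) (X : ℕ) (z : ℤ × ℤ) : Finset (ℕ × ℕ) :=
  ((range (m + 1)) ×ˢ (range (m + 1))).filter (fun x => x.1 < x.2 ∧
    Lkd δ η X (-1) (z.2 + z.1 * x.1).toNat (z.2 + z.1 * x.2).toNat)

/-- **The core theorem for the exponents.** -/
theorem coreE : ∃ c : ℝ, 0 < c ∧ c < 1 ∧ ∀ T M : ℕ, 1 ≤ T → (4 - c) * M < T → ∀ (m : ℕ)
    (e : Fin T → ℕ), StrictMono e → (∀ g, e g ≤ m) → ∀ δ : ℝ, 0 < δ → ∃ F : Finset (ℤ × ℤ),
    ∀ (B : ℕ) (η : ℝ), 0 < η → η ≤ 1 → ∀ᶠ X : ℕ in atTop, ∀ (z : ℤ × ℤ) (l : ℤ)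
      (G : Finset (ℕ × ℕ)), l ≠ 0 → (∀ w ∈ F, 1 ≤ (z + l • w).1 ∧ (z + l • w).1 ≤ B ∧
        0 ≤ (z + l • w).2 ∧ (z + l • w).2 ≤ B ∧ GrE m δ η X (z + l • w) = G) →
      ∃ S : Finset (Fin T), M + 1 ≤ S.card ∧ ∀ g ∈ S, ∀ h ∈ S, g < h → (e g, e h) ∈ G := by
  classical
  obtain ⟨c, hc, hc1, hit⟩ := hitE
  refine ⟨c, hc, hc1, ?_⟩
  intro T M hT hTM m e he hem δ hδ
  obtain ⟨K, hK, hit⟩ := hit T M hT hTM (δ / 2) (by positivity)
  obtain ⟨P, hP⟩ : ∃ P : ℕ, P = m.factorial := ⟨_, rfl⟩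
  have hP1 : 0 < P := by rw [hP]; exact Nat.factorial_pos _
  obtain ⟨v, hv⟩ : ∃ v : (Fin T × Fin K) × (Fin T × Fin K) → ℤ × ℤ, v = fun z =>
    if z.1.1 < z.2.1 then
      (((P / (e z.2.1 - e z.1.1) : ℕ) : ℤ) * (((z.2.2 : ℕ) : ℤ) - ((z.1.2 : ℕ) : ℤ)),
        P * ((z.1.2 : ℕ) : ℤ) - e z.1.1 *
          (((P / (e z.2.1 - e z.1.1) : ℕ) : ℤ) * (((z.2.2 : ℕ) : ℤ) - ((z.1.2 : ℕ) : ℤ))))
    else (0, P * ((z.1.2 : ℕ) : ℤ)) := ⟨_, rfl⟩
  refine ⟨univ.image v, fun B η hη hη1 => ?_⟩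
  filter_upwards [hit (B + B * m) η hη hη1, eventually_ge_atTop ⌈2 / δ⌉₊] with X hX hX2 z l G hl hF
  have hFz : ∀ y, 1 ≤ (z + l • v y).1 ∧ (z + l • v y).1 ≤ B ∧
        0 ≤ (z + l • v y).2 ∧ (z + l • v y).2 ≤ B ∧ GrE m δ η X (z + l • v y) = G :=
    fun y => hF _ (mem_image_of_mem v (mem_univ y))
  have hX2' : 2 / δ ≤ X := (Nat.le_ceil _).trans (by exact_mod_cast hX2)
  -- the exponents
  obtain ⟨a, ha⟩ : ∃ a : Fin T → Fin K → ℕ, a = fun (g : Fin T) (i : Fin K) =>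
    (z.2 + z.1 * e g + l * (P * ((i : ℕ) : ℤ))).toNat := ⟨_, rfl⟩
  have hrep : ∀ (y : (Fin T × Fin K) × (Fin T × Fin K)),
      (z + l • v y).2 + (z + l • v y).1 * e y.1.1 = z.2 + z.1 * e y.1.1 + l * (P * ((y.1.2 : ℕ) : ℤ)) := by
    intro y
    rw [hv]
    simp only [Prod.fst_add, Prod.snd_add, Prod.smul_fst, Prod.smul_snd, smul_eq_mul]
    split_ifs with h
    · simp only
      ring
    · simp only
      ring
  have hrep2 : ∀ (y : (Fin T × Fin K) × (Fin T × Fin K)), y.1.1 < y.2.1 →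
      (z + l • v y).2 + (z + l • v y).1 * e y.2.1 = z.2 + z.1 * e y.2.1 + l * (P * ((y.2.2 : ℕ) : ℤ)) := by
    intro y hy
    have h1 := hrep y
    have h2 := he hy
    have h3 := hem y.2.1
    have h4 : ((P : ℕ) : ℤ) = ((e y.2.1 : ℤ) - e y.1.1) * ((P / (e y.2.1 - e y.1.1) : ℕ) : ℤ) := by
      have h5 : (e y.2.1 - e y.1.1) * (P / (e y.2.1 - e y.1.1)) = P := by
        apply Nat.mul_div_cancel'
        rw [hP]
        exact Nat.dvd_factorial (by omega) (by omega)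
      have h6 : (((e y.2.1 - e y.1.1 : ℕ) : ℕ) : ℤ) = (e y.2.1 : ℤ) - e y.1.1 := by
        rw [Nat.cast_sub h2.le]
      rw [← h6]
      exact_mod_cast h5.symm
    rw [hv] at h1 ⊢
    simp only [Prod.fst_add, Prod.snd_add, Prod.smul_fst, Prod.smul_snd, smul_eq_mul, if_pos hy] at h1 ⊢
    generalize ((P / (e y.2.1 - e y.1.1) : ℕ) : ℤ) = Q at h1 h4 ⊢
    rw [h4]
    ring
  have hann : ∀ (g : Fin T) (i : Fin K), 0 ≤ z.2 + z.1 * e g + l * (P * ((i : ℕ) : ℤ)) := by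
    intro g i
    rw [← hrep ((g, i), (g, i))]
    obtain ⟨h1, -, h3, -, -⟩ := hFz ((g, i), (g, i))
    positivity
  have haz : ∀ (g : Fin T) (i : Fin K), ((a g i : ℕ) : ℤ) = z.2 + z.1 * e g + l * (P * ((i : ℕ) : ℤ)) := by
    intro g i
    rw [ha]
    exact Int.toNat_of_nonneg (hann g i)
  have haB : ∀ g i, a g i ≤ B + B * m := by
    intro g i
    have h1 := haz g i
    rw [← hrep ((g, i), (g, i))] at h1
    obtain ⟨h2, h3, h4, h5, -⟩ := hFz ((g, i), (g, i))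
    have h6 : (e g : ℤ) ≤ m := by exact_mod_cast hem g
    have h7 : (z + l • v ((g, i), (g, i))).1 * (e g : ℤ) ≤ B * m :=
      mul_le_mul h3 h6 (Nat.cast_nonneg _) (Nat.cast_nonneg _)
    have h8 : ((a g i : ℕ) : ℤ) ≤ ((B + B * m : ℕ) : ℤ) := by
      rw [h1]
      push_cast
      exact add_le_add h5 h7
    exact_mod_cast h8
  have hlt : ∀ (g h : Fin T) (i j : Fin K), g < h → a g i < a h j := by
    intro g h i j hgh
    have h1 := haz g i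
    have h2 := haz h j
    rw [← hrep ((g, i), (h, j))] at h1
    rw [← hrep2 ((g, i), (h, j)) hgh] at h2
    simp only at h1 h2
    obtain ⟨h3, -, -, -, -⟩ := hFz ((g, i), (h, j))
    have h4 : (e g : ℤ) < e h := by exact_mod_cast he hgh
    have h5 : (z + l • v ((g, i), (h, j))).1 * (e g : ℤ) < (z + l • v ((g, i), (h, j))).1 * e h :=
      mul_lt_mul_of_pos_left h4 (by linarith)
    have h6 : ((a g i : ℕ) : ℤ) < a h j := by
      rw [h1, h2]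
      linarith
    exact_mod_cast h6
  obtain ⟨S, σ, hS, hcard⟩ := hX a haB (by
    rintro ⟨g, i⟩ ⟨h, j⟩ heq
    simp only at heq
    rcases lt_trichotomy g h with hgh | hgh | hgh
    · exact absurd heq (hlt g h i j hgh).ne
    · subst hgh
      have h1 := haz g i
      have h2 := haz g j
      rw [heq, h2] at h1
      have h3 : l * (P * ((j : ℕ) : ℤ)) = l * (P * ((i : ℕ) : ℤ)) := by linarith
      have h4 : (P : ℤ) ≠ 0 := by exact_mod_cast hP1.ne'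
      have h5 := mul_left_cancel₀ h4 (mul_left_cancel₀ hl h3)
      rw [Fin.ext (by exact_mod_cast h5.symm : (i : ℕ) = j)]
    · exact absurd heq (hlt h g j i hgh).ne')
  refine ⟨S, hS, fun g hg h hh hgh => ?_⟩
  have hy := hFz ((g, σ g), (h, σ h))
  rw [← hy.2.2.2.2]
  refine mem_filter.2 ⟨mem_product.2 ⟨mem_range.2 (by have := hem g; omega),
    mem_range.2 (by have := hem h; omega)⟩, he hgh, ?_⟩
  have h1 : ((z + l • v ((g, σ g), (h, σ h))).2 + (z + l • v ((g, σ g), (h, σ h))).1 * (e g : ℤ)).toNat =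
      a g (σ g) := by
    rw [hrep ((g, σ g), (h, σ h)), ha]
  have h2 : ((z + l • v ((g, σ g), (h, σ h))).2 + (z + l • v ((g, σ g), (h, σ h))).1 * (e h : ℤ)).toNat =
      a h (σ h) := by
    rw [hrep2 ((g, σ g), (h, σ h)) hgh, ha]
  simp only
  rw [h1, h2]
  exact lkd_of_sim hδ hX2' (a := fun g => a g (σ g)) hg hh (hlt g h _ _ hgh) hcard

end Pool.Agent.H12x.WL
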