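import Mathlib
import Pool.Agent.Y877.Comb

/-!
# Homothetic copies in the plane: colourings and dense sets (helper12)
-/

set_option autoImplicit false

namespace Pool.Agent.H12x.WL

open Finset Pool.Agent.H602R3.DHJ Pool.Agent.Y877

/-- Gallai's theorem in the plane, finite form (from Hales-Jewett) -/
theorem gallai (Γ : Type) [Finite Γ] (F : Finset (ℤ × ℤ)) (hF : F.Nonempty) : ∃ ℓ : ℕ, 1 ≤ ℓ ∧
    ∀ χ : ℕ × ℕ → Γ, ∃ (k : ℕ × ℕ) (s : ℕ), 1 ≤ s ∧ ∃ g : Γ, ∀ w ∈ F, ∃ j : ℕ × ℕ, j.1 < ℓ ∧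
      j.2 < ℓ ∧ (j.1 : ℤ) = k.1 + s * w.1 ∧ (j.2 : ℤ) = k.2 + s * w.2 ∧ χ j = g := by
  classical
  obtain ⟨R, hR⟩ : ∃ R : ℕ, ∀ w ∈ F, |w.1| ≤ R ∧ |w.2| ≤ R := by
    refine ⟨F.sup (fun w => w.1.natAbs + w.2.natAbs), fun w hw => ?_⟩
    have h1 := Finset.le_sup (f := fun w : ℤ × ℤ => w.1.natAbs + w.2.natAbs) hw
    rw [Int.abs_eq_natAbs, Int.abs_eq_natAbs]
    constructor
    · exact_mod_cast (Nat.le_add_right _ _).trans h1
    · exact_mod_cast (Nat.le_add_left _ _).trans h1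
  obtain ⟨ι, hι, h⟩ := Combinatorics.Line.exists_mono_in_high_dimension {w : ℤ × ℤ // w ∈ F} Γ
  refine ⟨2 * R * Fintype.card ι + 1, by omega, fun χ => ?_⟩
  obtain ⟨l, g, hg⟩ := h (fun u => χ (∑ i, ((u i : ℤ × ℤ).1 + R).toNat,
    ∑ i, ((u i : ℤ × ℤ).2 + R).toNat))
  obtain ⟨Act, hAct⟩ : ∃ Act : Finset ι, Act = univ.filter (fun i => l.idxFun i = none) := ⟨_, rfl⟩
  obtain ⟨w₀, hw₀⟩ := hF
  have hs1 : 1 ≤ Act.card := by
    obtain ⟨i, hi⟩ := l.proper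
    rw [hAct]
    exact card_pos.2 ⟨i, mem_filter.2 ⟨mem_univ _, hi⟩⟩
  have hact : ∀ (w : ℤ × ℤ) (hw : w ∈ F) (i : ι), i ∈ Act → ((l ⟨w, hw⟩) i : ℤ × ℤ) = w := by
    intro w hw i hi
    rw [hAct, mem_filter] at hi
    show (((l.idxFun i).getD ⟨w, hw⟩ : {w : ℤ × ℤ // w ∈ F}) : ℤ × ℤ) = w
    rw [hi.2]
    rfl
  have hfix : ∀ (w : ℤ × ℤ) (hw : w ∈ F) (i : ι), i ∈ univ \ Act →
      ((l ⟨w, hw⟩) i : ℤ × ℤ) = (l ⟨w₀, hw₀⟩) i := by
    intro w hw i hi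
    have h2 : l.idxFun i ≠ none := by
      intro h3
      exact (mem_sdiff.1 hi).2 (by rw [hAct]; exact mem_filter.2 ⟨mem_univ _, h3⟩)
    obtain ⟨y, hy⟩ := Option.ne_none_iff_exists'.1 h2
    have h3 : ∀ x : {w : ℤ × ℤ // w ∈ F}, (l x) i = y := by
      intro x
      show (l.idxFun i).getD x = y
      rw [hy]
      rfl
    rw [h3, h3]
  have hval : ∀ (w : ℤ × ℤ) (hw : w ∈ F) (i : ι), |((l ⟨w, hw⟩) i : ℤ × ℤ).1| ≤ R ∧
      |((l ⟨w, hw⟩) i : ℤ × ℤ).2| ≤ R := fun w hw i => hR _ ((l ⟨w, hw⟩) i).2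
  have key : ∀ (f : ℤ × ℤ → ℤ), (∀ w ∈ F, |f w| ≤ R) → ∀ (w : ℤ × ℤ) (hw : w ∈ F),
      ∑ i, (f ((l ⟨w, hw⟩) i : ℤ × ℤ) + R).toNat < 2 * R * Fintype.card ι + 1 ∧
      ((∑ i, (f ((l ⟨w, hw⟩) i : ℤ × ℤ) + R).toNat : ℕ) : ℤ) =
        ((∑ i ∈ univ \ Act, (f ((l ⟨w₀, hw₀⟩) i : ℤ × ℤ) + R).toNat + Act.card * R : ℕ) : ℤ) +
          Act.card * f w := by
    intro f hf w hw
    constructor
    · have h1 : ∑ i, (f ((l ⟨w, hw⟩) i : ℤ × ℤ) + R).toNat ≤ ∑ _i : ι, 2 * R := by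
        refine sum_le_sum fun i _ => ?_
        have := (abs_le.1 (hf _ ((l ⟨w, hw⟩) i).2)).2
        omega
      rw [sum_const, card_univ, smul_eq_mul] at h1
      have h2 : Fintype.card ι * (2 * R) = 2 * R * Fintype.card ι := mul_comm _ _
      omega
    · rw [← Finset.sum_sdiff (subset_univ Act)]
      have h1 : ∑ i ∈ univ \ Act, (f ((l ⟨w, hw⟩) i : ℤ × ℤ) + R).toNat =
          ∑ i ∈ univ \ Act, (f ((l ⟨w₀, hw₀⟩) i : ℤ × ℤ) + R).toNat :=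
        sum_congr rfl fun i hi => by rw [hfix w hw i hi]
      have h2 : ∑ i ∈ Act, (f ((l ⟨w, hw⟩) i : ℤ × ℤ) + R).toNat = Act.card * (f w + R).toNat := by
        rw [← smul_eq_mul, ← sum_const]
        exact sum_congr rfl fun i hi => by rw [hact w hw i hi]
      rw [h1, h2]
      have h3 : (((f w + R).toNat : ℕ) : ℤ) = f w + R := by
        apply Int.toNat_of_nonneg
        have := (abs_le.1 (hf w hw)).1
        linarith
      push_cast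
      rw [h3]
      ring
  refine ⟨(∑ i ∈ univ \ Act, (((l ⟨w₀, hw₀⟩) i : ℤ × ℤ).1 + R).toNat + Act.card * R,
    ∑ i ∈ univ \ Act, (((l ⟨w₀, hw₀⟩) i : ℤ × ℤ).2 + R).toNat + Act.card * R), Act.card, hs1,
    g, fun w hw => ?_⟩
  have h1 := key Prod.fst (fun w hw => (hR w hw).1) w hw
  have h2 := key Prod.snd (fun w hw => (hR w hw).2) w hw
  exact ⟨_, h1.1, h2.1, h1.2, h2.2, hg ⟨w, hw⟩⟩

open Classical in
/-- homothetic copies in dense sets in the plane (from density Hales-Jewett) -/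
theorem dens2 (α : Type) [Fintype α] [Nonempty α] (ε : ℝ) (hε : 0 < ε) : ∃ n : ℕ, 1 ≤ n ∧
    ∀ (v : α → ℤ × ℤ) (E Y : Finset (ℤ × ℤ)),
    (∀ y ∈ E, ∀ u : Fin n → α, y - ∑ i, v (u i) ∈ Y) → ε * Y.card < E.card →
    ∃ (x : ℤ × ℤ) (l : ℕ), 1 ≤ l ∧ l ≤ n ∧ ∀ a, x + (l : ℤ) • v a ∈ E := by
  obtain ⟨N, hN⟩ := dhjT α ε hε
  refine ⟨N + 1, by omega, fun v E Y hEY hlt => ?_⟩
  have hN1 : ∀ A : Set (Fin (N + 1) → α), LFr A → dn A < ε :=
    D_up hN (Fin (N + 1)) (by rw [Fintype.card_fin]; omega)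
  have hTpos : (0 : ℝ) < Fintype.card (Fin (N + 1) → α) := by exact_mod_cast Fintype.card_pos
  obtain ⟨W, hW⟩ : ∃ W : ℤ × ℤ → Set (Fin (N + 1) → α), W = fun z => {u | z + ∑ i, v (u i) ∈ E} :=
    ⟨_, rfl⟩
  have hdn : ∀ z, dn (W z) = (∑ u : Fin (N + 1) → α, (if z + ∑ i, v (u i) ∈ E then (1 : ℝ) else 0)) /
      Fintype.card (Fin (N + 1) → α) := by
    intro z
    unfold dn av
    congr 1
    refine sum_congr rfl fun u _ => ?_
    rw [Set.indicator_apply]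
    exact if_congr (by rw [hW]; exact Iff.rfl) rfl rfl
  obtain ⟨z, hzY, hz⟩ : ∃ z ∈ Y, ε ≤ dn (W z) := by
    by_contra hcon
    push Not at hcon
    have h1 : ∑ z ∈ Y, dn (W z) ≤ ε * Y.card := by
      refine (sum_le_sum fun z hz => (hcon z hz).le).trans ?_
      rw [sum_const, nsmul_eq_mul, mul_comm]
    have h2 : (E.card : ℝ) ≤ ∑ z ∈ Y, dn (W z) := by
      simp_rw [hdn]
      rw [← sum_div, sum_comm, le_div_iff₀ hTpos]
      have h3 : ∀ u : Fin (N + 1) → α, (E.card : ℝ) ≤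
          ∑ z ∈ Y, (if z + ∑ i, v (u i) ∈ E then (1 : ℝ) else 0) := by
        intro u
        rw [← sum_filter, sum_const, nsmul_eq_mul, mul_one, Nat.cast_le]
        apply card_le_card_of_injOn (fun b => b - ∑ i, v (u i))
        · intro b hb
          rw [mem_coe, mem_filter]
          exact ⟨hEY b (mem_coe.1 hb) u, by rw [sub_add_cancel]; exact mem_coe.1 hb⟩
        · intro b _ b' _ h
          exact sub_left_injective h
      have h4 : ∑ _u : Fin (N + 1) → α, (E.card : ℝ) ≤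
          ∑ u : Fin (N + 1) → α, ∑ z ∈ Y, (if z + ∑ i, v (u i) ∈ E then (1 : ℝ) else 0) :=
        sum_le_sum fun u _ => h3 u
      rw [sum_const, card_univ, nsmul_eq_mul, mul_comm] at h4
      exact h4
    linarith
  have hnl : ¬ LFr (W z) := fun h => absurd (hN1 _ h) (not_lt.2 hz)
  unfold LFr at hnl
  push Not at hnl
  obtain ⟨V, hV, hVa⟩ := hnl
  obtain ⟨s₁, hs₁⟩ := line_sum V (fun a => (v a).1)
  obtain ⟨s₂, hs₂⟩ := line_sum V (fun a => (v a).2)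
  refine ⟨z + (s₁, s₂), act V, act_pos V hV, act_le V, fun a => ?_⟩
  have h1 := hVa a
  rw [hW] at h1
  have h2 : z + ∑ i, v (ap V (fun _ => a) i) = z + (s₁, s₂) + ((act V : ℕ) : ℤ) • v a := by
    rw [add_assoc]
    congr 1
    refine Prod.ext ?_ ?_
    · rw [Prod.fst_sum, hs₁ a]
      simp
    · rw [Prod.snd_sum, hs₂ a]
      simp
  rw [← h2]
  exact h1

end Pool.Agent.H12x.WL
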