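import Mathlib
import Pool.Agent.H12x.WL.Exp
import Pool.Agent.H12x.WL.Two

/-!
# Linked windows for the map `x ↦ 2 x - 1`: multiples of almost all exponents (helper12)
-/

set_option autoImplicit false

namespace Pool.Agent.H12x.WL

open Finset Filter

/-- among the windows with the exponents `s + k i`, `i ≤ m`, `z = (k, s)`, every set contains many pairwise
linked windows -/
def GoodE (c δ η : ℝ) (m X : ℕ) (z : ℤ × ℤ) : Prop :=
  ∀ A : Finset ℕ, A ⊆ range (m + 1) → ∃ S ⊆ A, (A.card : ℝ) ≤ (4 - c) * S.card ∧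
    ∀ i ∈ S, ∀ j ∈ S, i < j → Lkd δ η X (-1) (z.2 + z.1 * i).toNat (z.2 + z.1 * j).toNat

theorem shapeE : ∃ c : ℝ, 0 < c ∧ c < 1 ∧ ∀ (m : ℕ) (δ : ℝ), 0 < δ → ∃ F : Finset (ℤ × ℤ),
    (0 : ℤ × ℤ) ∈ F ∧ ∀ (B : ℕ) (η : ℝ), 0 < η → η ≤ 1 → ∀ᶠ X : ℕ in atTop,
    ∀ (z : ℤ × ℤ) (l : ℤ), l ≠ 0 → (∀ w ∈ F, 1 ≤ (z + l • w).1 ∧ (z + l • w).1 ≤ B ∧
        0 ≤ (z + l • w).2 ∧ (z + l • w).2 ≤ B ∧ GrE m δ η X (z + l • w) = GrE m δ η X z) →
      GoodE c δ η m X z := by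
  classical
  obtain ⟨c, hc, hc1, H⟩ := coreE
  refine ⟨c, hc, hc1, fun m δ hδ => ?_⟩
  have h4 : (0 : ℝ) < 4 - c := by linarith
  have key : ∀ A : Finset ℕ, ∃ F : Finset (ℤ × ℤ), A ⊆ range (m + 1) → ∀ (B : ℕ) (η : ℝ), 0 < η →
      η ≤ 1 → ∀ᶠ X : ℕ in atTop, ∀ (z : ℤ × ℤ) (l : ℤ), l ≠ 0 →
      (∀ w ∈ F, 1 ≤ (z + l • w).1 ∧ (z + l • w).1 ≤ B ∧
        0 ≤ (z + l • w).2 ∧ (z + l • w).2 ≤ B ∧ GrE m δ η X (z + l • w) = GrE m δ η X z) →
      ∃ S ⊆ A, (A.card : ℝ) ≤ (4 - c) * S.card ∧ ∀ i ∈ S, ∀ j ∈ S, i < j →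
        Lkd δ η X (-1) (z.2 + z.1 * i).toNat (z.2 + z.1 * j).toNat := by
    intro A
    by_cases hA : A ⊆ range (m + 1)
    swap
    · exact ⟨∅, fun h => absurd h hA⟩
    rcases A.eq_empty_or_nonempty with rfl | hne
    · refine ⟨∅, fun _ B η _ _ => Eventually.of_forall fun X z l _ _ => ⟨∅, subset_rfl, ?_, ?_⟩⟩
      · simp
      · intro i hi
        exact absurd hi (notMem_empty _)
    obtain ⟨T, hT⟩ : ∃ T, A.card = T := ⟨_, rfl⟩
    have hT1 : 1 ≤ T := by rw [← hT]; exact hne.card_pos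
    obtain ⟨M, hM⟩ : ∃ M, M = ⌈(T : ℝ) / (4 - c)⌉₊ - 1 := ⟨_, rfl⟩
    have hTr : (0 : ℝ) < T := by exact_mod_cast hT1
    have hceil : 1 ≤ ⌈(T : ℝ) / (4 - c)⌉₊ := Nat.one_le_ceil_iff.2 (by positivity)
    have hM1 : (M : ℝ) + 1 = (⌈(T : ℝ) / (4 - c)⌉₊ : ℝ) := by
      have : M + 1 = ⌈(T : ℝ) / (4 - c)⌉₊ := by omega
      exact_mod_cast this
    have hTM : (4 - c) * M < T := by
      have h1 := Nat.ceil_lt_add_one (by positivity : (0 : ℝ) ≤ (T : ℝ) / (4 - c))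
      have h2 : (M : ℝ) < T / (4 - c) := by linarith
      rw [lt_div_iff₀ h4] at h2
      linarith
    have hTM2 : (T : ℝ) ≤ (4 - c) * (M + 1) := by
      have h1 := Nat.le_ceil ((T : ℝ) / (4 - c))
      rw [← hM1, div_le_iff₀ h4] at h1
      linarith
    obtain ⟨F, h⟩ := H T M hT1 hTM m (A.orderEmbOfFin hT) (A.orderEmbOfFin hT).strictMono
      (fun g => by
        have := mem_range.1 (hA (A.orderEmbOfFin_mem hT g))
        omega) δ hδ
    refine ⟨F, fun _ B η hη hη1 => ?_⟩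
    filter_upwards [h B η hη hη1] with X hX z l hl hcol
    obtain ⟨S, hS, hS2⟩ := hX z l (GrE m δ η X z) hl hcol
    refine ⟨S.image (A.orderEmbOfFin hT), ?_, ?_, ?_⟩
    · intro a ha
      obtain ⟨g, -, rfl⟩ := mem_image.1 ha
      exact A.orderEmbOfFin_mem hT g
    · rw [card_image_of_injective _ (A.orderEmbOfFin hT).injective, hT]
      refine hTM2.trans (mul_le_mul_of_nonneg_left ?_ h4.le)
      exact_mod_cast hS
    · intro i hi j hj hij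
      obtain ⟨g, hg, rfl⟩ := mem_image.1 hi
      obtain ⟨g', hg', rfl⟩ := mem_image.1 hj
      have h1 := hS2 g hg g' hg' ((A.orderEmbOfFin hT).lt_iff_lt.1 hij)
      exact (mem_filter.1 h1).2.2
  choose F hFL using key
  refine ⟨insert 0 ((range (m + 1)).powerset.biUnion F), mem_insert_self _ _, fun B η hη hη1 => ?_⟩
  have h1 : ∀ᶠ X : ℕ in atTop, ∀ A ∈ (range (m + 1)).powerset, ∀ (z : ℤ × ℤ) (l : ℤ), l ≠ 0 →
      (∀ w ∈ F A, 1 ≤ (z + l • w).1 ∧ (z + l • w).1 ≤ B ∧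
        0 ≤ (z + l • w).2 ∧ (z + l • w).2 ≤ B ∧ GrE m δ η X (z + l • w) = GrE m δ η X z) →
      ∃ S ⊆ A, (A.card : ℝ) ≤ (4 - c) * S.card ∧ ∀ i ∈ S, ∀ j ∈ S, i < j →
        Lkd δ η X (-1) (z.2 + z.1 * i).toNat (z.2 + z.1 * j).toNat := by
    rw [Filter.eventually_all_finset]
    intro A hA
    exact hFL A (mem_powerset.1 hA) B η hη hη1
  filter_upwards [h1] with X hX z l hl hcol A hA
  exact hX A (mem_powerset.2 hA) z l hl fun w hw =>
    hcol w (mem_insert_of_mem (mem_biUnion.2 ⟨A, mem_powerset.2 hA, hw⟩))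

/-- **Every long grid, almost all pairs.** -/
theorem grids : ∃ c : ℝ, 0 < c ∧ c < 1 ∧ ∀ (m : ℕ) (δ : ℝ), 0 < δ →
    (∃ ℓ : ℕ, ∀ (B : ℕ) (η : ℝ), 0 < η → η ≤ 1 → ∀ᶠ X : ℕ in atTop, ∀ k₀ s₀ t : ℕ, 1 ≤ k₀ →
      1 ≤ t → k₀ + t * ℓ ≤ B → s₀ + t * ℓ ≤ B →
      ∃ a < ℓ, ∃ b < ℓ, GoodE c δ η m X (((k₀ + t * a : ℕ) : ℤ), ((s₀ + t * b : ℕ) : ℤ))) ∧
    ∀ ε : ℝ, 0 < ε → ∃ L : ℕ, ∀ (B : ℕ) (η : ℝ), 0 < η → η ≤ 1 → ∀ᶠ X : ℕ in atTop,
      ∀ u v H : ℕ, L ≤ H → u + H ≤ B → v + H ≤ B →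
      ({z : ℕ × ℕ | u < z.1 ∧ z.1 ≤ u + H ∧ v ≤ z.2 ∧ z.2 < v + H ∧
        ¬ GoodE c δ η m X ((z.1 : ℤ), (z.2 : ℤ))}.ncard : ℝ) ≤ ε * H ^ 2 := by
  classical
  obtain ⟨c, hc, hc1, h⟩ := shapeE
  refine ⟨c, hc, hc1, fun m δ hδ => ?_⟩
  obtain ⟨F, hF0, h⟩ := h m δ hδ
  set Γ : Type := {G : Finset (ℕ × ℕ) // G ∈ ((range (m + 1)) ×ˢ (range (m + 1))).powerset} with hΓ
  have hsubG : ∀ (η : ℝ) (X : ℕ) (z : ℤ × ℤ), GrE m δ η X z ∈
      ((range (m + 1)) ×ˢ (range (m + 1))).powerset :=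
    fun η X z => mem_powerset.2 (filter_subset _ _)
  refine ⟨?_, ?_⟩
  · obtain ⟨ℓ, hℓ, hv⟩ := gallai Γ F ⟨0, hF0⟩
    refine ⟨ℓ, fun B η hη hη1 => ?_⟩
    filter_upwards [h B η hη hη1] with X hX k₀ s₀ t hk₀ ht hB1 hB2
    obtain ⟨k, s, hs1, g, hg⟩ := hv (fun j => ⟨GrE m δ η X
      (((k₀ + t * j.1 : ℕ) : ℤ), ((s₀ + t * j.2 : ℕ) : ℤ)), hsubG _ _ _⟩)
    obtain ⟨j₀, hj1, hj2, hj3, hj4, hj₀g⟩ := hg 0 hF0
    have hjk : j₀ = k := by
      simp only [Prod.fst_zero, Prod.snd_zero, mul_zero, add_zero] at hj3 hj4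
      exact Prod.ext (by exact_mod_cast hj3) (by exact_mod_cast hj4)
    subst hjk
    refine ⟨j₀.1, hj1, j₀.2, hj2, ?_⟩
    refine hX _ (t * s) (by
      have h1 : t * s ≠ 0 := Nat.mul_ne_zero (by omega) (by omega)
      exact_mod_cast h1) ?_
    intro w hw
    obtain ⟨j, hja, hjb, hjc, hjd, hjg⟩ := hg w hw
    have h1 : ((((k₀ + t * j₀.1 : ℕ) : ℤ), ((s₀ + t * j₀.2 : ℕ) : ℤ)) : ℤ × ℤ) + ((t : ℤ) * s) • w =
        (((k₀ + t * j.1 : ℕ) : ℤ), ((s₀ + t * j.2 : ℕ) : ℤ)) := by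
      refine Prod.ext ?_ ?_
      · simp only [Prod.fst_add, Prod.smul_fst, smul_eq_mul]
        push_cast
        rw [hjc]; ring
      · simp only [Prod.snd_add, Prod.smul_snd, smul_eq_mul]
        push_cast
        rw [hjd]; ring
    rw [h1]
    have h2 : t * j.1 ≤ t * ℓ := Nat.mul_le_mul_left _ hja.le
    have h3 : t * j.2 ≤ t * ℓ := Nat.mul_le_mul_left _ hjb.le
    simp only
    refine ⟨?_, ?_, Nat.cast_nonneg _, ?_, ?_⟩
    · exact_mod_cast (by omega : 1 ≤ k₀ + t * j.1)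
    · exact_mod_cast (by omega : k₀ + t * j.1 ≤ B)
    · exact_mod_cast (by omega : s₀ + t * j.2 ≤ B)
    · exact congrArg Subtype.val (hjg.trans hj₀g.symm)
  · intro ε hε
    have : Nonempty {w : ℤ × ℤ // w ∈ F} := ⟨⟨0, hF0⟩⟩
    have : Nonempty Γ := ⟨⟨∅, mem_powerset.2 (empty_subset _)⟩⟩
    have hΓ0 : (0 : ℝ) < Fintype.card Γ := by exact_mod_cast Fintype.card_pos
    obtain ⟨n, hn, hcopy⟩ := dens2 {w : ℤ × ℤ // w ∈ F} (ε / (8 * Fintype.card Γ)) (by positivity)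
    obtain ⟨R, hR⟩ : ∃ R : ℕ, ∀ w ∈ F, |w.1| ≤ R ∧ |w.2| ≤ R := by
      refine ⟨F.sup (fun w => w.1.natAbs + w.2.natAbs), fun w hw => ?_⟩
      have h1 := Finset.le_sup (f := fun w : ℤ × ℤ => w.1.natAbs + w.2.natAbs) hw
      rw [Int.abs_eq_natAbs, Int.abs_eq_natAbs]
      constructor
      · exact_mod_cast (Nat.le_add_right _ _).trans h1
      · exact_mod_cast (Nat.le_add_left _ _).trans h1
    refine ⟨2 * (n * R) + 1, fun B η hη hη1 => ?_⟩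
    filter_upwards [h B η hη hη1] with X hX u v H hH hB1 hB2
    by_contra hcon
    push Not at hcon
    set Bad : Finset (ℤ × ℤ) := ((Ioc (u : ℤ) (u + H)) ×ˢ (Ico (v : ℤ) (v + H))).filter
      (fun z => ¬ GoodE c δ η m X z) with hBad
    have hle : {z : ℕ × ℕ | u < z.1 ∧ z.1 ≤ u + H ∧ v ≤ z.2 ∧ z.2 < v + H ∧
        ¬ GoodE c δ η m X ((z.1 : ℤ), (z.2 : ℤ))}.ncard ≤ Bad.card := by
      rw [← Set.ncard_coe_finset]
      refine Set.ncard_le_ncard_of_injOn (fun z : ℕ × ℕ => ((z.1 : ℤ), (z.2 : ℤ))) ?_ ?_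
        (Finset.finite_toSet _)
      · rintro z ⟨h1, h2, h3, h4, h5⟩
        rw [mem_coe, hBad, mem_filter, mem_product, mem_Ioc, mem_Ico]
        refine ⟨⟨⟨?_, ?_⟩, ?_, ?_⟩, h5⟩
        · show (u : ℤ) < (z.1 : ℤ)
          exact_mod_cast h1
        · show (z.1 : ℤ) ≤ u + H
          exact_mod_cast h2
        · show (v : ℤ) ≤ (z.2 : ℤ)
          exact_mod_cast h3
        · show (z.2 : ℤ) < v + H
          exact_mod_cast h4
      · intro z _ z' _ hzz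
        have h1 := (Prod.ext_iff.1 hzz).1
        have h2 := (Prod.ext_iff.1 hzz).2
        simp only at h1 h2
        exact Prod.ext (by exact_mod_cast h1) (by exact_mod_cast h2)
    have hcon' : ε * (H : ℝ) ^ 2 < Bad.card := lt_of_lt_of_le hcon (by exact_mod_cast hle)
    -- a colour class
    obtain ⟨G, hG⟩ : ∃ G : Γ, ε * (H : ℝ) ^ 2 / Fintype.card Γ <
        ((Bad.filter (fun z => (⟨GrE m δ η X z, hsubG _ _ _⟩ : Γ) = G)).card : ℝ) := by
      by_contra hno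
      push Not at hno
      have h1 := card_eq_sum_card_fiberwise (f := fun z => (⟨GrE m δ η X z, hsubG η X z⟩ : Γ))
        (s := Bad) (t := univ) (fun _ _ => mem_coe.2 (mem_univ _))
      have h2 : (Bad.card : ℝ) ≤ ∑ _G : Γ, ε * (H : ℝ) ^ 2 / Fintype.card Γ := by
        rw [h1]
        push_cast
        exact sum_le_sum fun G _ => hno G
      rw [sum_const, card_univ, nsmul_eq_mul, mul_div_cancel₀ _ hΓ0.ne'] at h2
      linarith
    set E := Bad.filter (fun z => (⟨GrE m δ η X z, hsubG _ _ _⟩ : Γ) = G) with hE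
    set Y : Finset (ℤ × ℤ) := (Icc ((u : ℤ) - n * R) (u + H + n * R)) ×ˢ
      (Icc ((v : ℤ) - n * R) (v + H + n * R)) with hY
    have hH1 : (2 * (n * R) + 1 : ℝ) ≤ H := by exact_mod_cast hH
    obtain ⟨x, l, hl1, hln, hx⟩ := hcopy (fun w => w.1) E Y (by
        intro y hy w
        have hyB := (mem_product.1 (mem_filter.1 (mem_filter.1 hy).1).1)
        rw [mem_Ioc, mem_Ico] at hyB
        have hs : ∀ (f : ℤ × ℤ → ℤ), (∀ w ∈ F, |f w| ≤ R) →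
            |∑ i, f ((w i : ℤ × ℤ))| ≤ (n : ℤ) * R := by
          intro f hf
          refine (abs_sum_le_sum_abs _ _).trans ?_
          refine (sum_le_sum fun i _ => hf _ (w i).2).trans ?_
          rw [sum_const, card_univ, Fintype.card_fin, nsmul_eq_mul]
        have h1 := abs_le.1 (hs Prod.fst fun w hw => (hR w hw).1)
        have h2 := abs_le.1 (hs Prod.snd fun w hw => (hR w hw).2)
        rw [hY, mem_product, mem_Icc, mem_Icc]
        simp only [Prod.fst_sub, Prod.snd_sub, Prod.fst_sum, Prod.snd_sum]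
        refine ⟨⟨by linarith [h1.2], by linarith [h1.1]⟩, by linarith [h2.2], by linarith [h2.1]⟩) (by
        refine lt_of_le_of_lt ?_ hG
        have hYc : (Y.card : ℝ) ≤ 8 * (H : ℝ) ^ 2 := by
          rw [hY, card_product, Int.card_Icc, Int.card_Icc]
          have e1 : ((u : ℤ) + H + n * R + 1 - (u - n * R)).toNat = H + 2 * (n * R) + 1 := by
            have : ((u : ℤ) + H + n * R + 1 - (u - n * R)) = ((H + 2 * (n * R) + 1 : ℕ) : ℤ) := by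
              push_cast; ring
            rw [this, Int.toNat_natCast]
          have e2 : ((v : ℤ) + H + n * R + 1 - (v - n * R)).toNat = H + 2 * (n * R) + 1 := by
            have : ((v : ℤ) + H + n * R + 1 - (v - n * R)) = ((H + 2 * (n * R) + 1 : ℕ) : ℤ) := by
              push_cast; ring
            rw [this, Int.toNat_natCast]
          rw [e1, e2]
          push_cast
          have h3 : (H : ℝ) + 2 * (n * R) + 1 ≤ 2 * H := by linarith
          have h4 : (0 : ℝ) ≤ (H : ℝ) + 2 * (n * R) + 1 := by positivity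
          nlinarith
        calc ε / (8 * Fintype.card Γ) * (Y.card : ℝ) ≤ ε / (8 * Fintype.card Γ) * (8 * (H : ℝ) ^ 2) :=
              mul_le_mul_of_nonneg_left hYc (by positivity)
          _ = ε * (H : ℝ) ^ 2 / Fintype.card Γ := by field_simp)
    have hx0 := hx ⟨0, hF0⟩
    simp only [smul_zero, add_zero] at hx0
    have hxB := (mem_filter.1 hx0).1
    have hxG := (mem_filter.1 hx0).2
    apply (mem_filter.1 hxB).2
    refine hX x l (by exact_mod_cast (by omega : l ≠ 0)) fun w hw => ?_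
    have h1 := hx ⟨w, hw⟩
    have h2 := (mem_filter.1 h1).2
    have h3 := mem_product.1 (mem_filter.1 (mem_filter.1 h1).1).1
    rw [mem_Ioc, mem_Ico] at h3
    obtain ⟨⟨h4, h5⟩, h6, h7⟩ := h3
    have hu : ((u : ℤ) + H) ≤ B := by exact_mod_cast hB1
    have hv : ((v : ℤ) + H) ≤ B := by exact_mod_cast hB2
    have hu0 : (0 : ℤ) ≤ u := Nat.cast_nonneg _
    have hv0 : (0 : ℤ) ≤ v := Nat.cast_nonneg _
    refine ⟨by linarith, by linarith, by linarith, by linarith, ?_⟩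
    exact congrArg Subtype.val (h2.trans hxG.symm)

end Pool.Agent.H12x.WL
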