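import Mathlib
import Pool.Agent.Y826.Z.Lay
import Pool.Agent.Y826.ZG.Defs4
import Pool.Agent.Y826.ZC.Dhl
import Pool.Agent.Y826.ZG.Final
import Pool.Agent.H12x.WL.Crit45

/-! The layered choice of the multipliers (helper362) and the certificate for `45` forms (helper826), as in
`Pool.Agent.Y876.FF.Lay`, in the window `(X, 2.72 X]` (helper12). -/

set_option autoImplicit false

open Finset Filter

namespace Pool.Agent.H12x.WL.FF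

open Pool.Agent.H95R2.BG Pool.Agent.H95R2.BG.LF Pool.Agent.H378R2
open Pool.Agent.Y826.Z Pool.Agent.Y826.Z.LayAux Pool.Agent.Y826.ZG
open Pool.Agent.Y876.FF (CC)

/-- `Y826.ZG.S_LAYL` with the number `X / (log X) ^ C` of good integers -/
def S_LAYL3 : Prop := ∀ {K0 N1 M R L Dm : ℕ}, 0 < N1 → M ≤ 2 * N1 → R < 2 * N1 → Dm < L → L ≤ 2 * N1 →
    ∀ (F : (Fin (K0 + 1) → ℕ) → ℝ), (∀ c, F c ≠ 0 → rad c ≤ R + 1) →
    ∀ (S : Finset (Fin K0 → ℕ)), S ⊆ Box K0 M → (∀ i, ∀ c ∈ Box K0 M, UU M F i c ≠ 0 → c ∈ S) →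
    (∀ c ∈ S, rad c ≤ R) → ∀ ρ : (Fin K0 → ℕ) → ℕ, (∀ c ∈ S, ρ c ≤ L + Dm) →
    (∀ c ∈ S, ∀ c' ∈ S, ρ c + ρ c' ≤ 2 * L → Ev N1 c c') →
    ∀ (r : ℕ) (μ : Fin r → ℝ), (∀ l, 0 ≤ μ l) → ∀ (T : Fin r → ℕ) (W : (Fin K0 → ℕ) → ℝ),
    (∀ c ∈ S, ρ c + Dm ≤ L → W c ≤ 1) →
    (∀ c ∈ S, L < ρ c + Dm → ρ c ≤ L →
      W c ≤ 1 - 1 / (1 + 4 / (2 + (rad c : ℝ) / N1) * ∑ l, if T l ≤ L - ρ c then μ l else 0)) →
    (∀ c ∈ S, L < ρ c → W c ≤ - (4 * (∑ l, if T l < ρ c - L then μ l else 0) / (2 - (rad c : ℝ) / N1))) →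
    (4 * N1 * ∑ c ∈ Box (K0 + 1) M, F c ^ 2 < ∑ i, ∑ c ∈ S, W c * UU M F i c ^ 2) →
    ∀ (A B : Fin (K0 + 1) → ℕ), AdmissibleL A B →
    ∀ᶠ X : ℝ in atTop, X / Real.log X ^ CC (K0 + 1) ≤ ((goodW A B X).card : ℝ)

/-- the layered choice of the multipliers, for linear forms -/
theorem layl3 (hC : S_CRITL3) : S_LAYL3 := by
  intro K0 N1 M R L Dm hN1 hM hR hDm hL F hF S hS hUU hSR ρ hρ hEv r μ hμ T W hW0 hWA hWB hcrit A B hadm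
  have hN1r : (0 : ℝ) < N1 := by exact_mod_cast hN1
  have hσ0 : ∀ c : Fin K0 → ℕ, 0 ≤ (rad c : ℝ) / N1 := fun c => by positivity
  refine hC hN1 hM hR F hF S hS hUU r μ hμ
    (al L Dm μ T ρ (fun c : Fin K0 → ℕ => (rad c : ℝ) / N1))
    (kk L Dm μ T ρ (fun c : Fin K0 → ℕ => (rad c : ℝ) / N1)) ?_ ?_ ?_ A B hadm
  · intro Y
    exact psd μ hμ _ (bl L Dm μ T ρ (fun c : Fin K0 → ℕ => (rad c : ℝ) / N1)) _ Y
  · intro c hc c' hc' hne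
    refine hEv c hc c' hc' ?_
    by_contra hcon
    exact hne (kk_zero L Dm μ T ρ _ hμ c c' (hσ0 c) (hσ0 c') (hρ c hc) (hρ c' hc') (by omega))
  · refine hcrit.trans_le ?_
    refine Finset.sum_le_sum fun i _ => Finset.sum_le_sum fun c hc => ?_
    refine mul_le_mul_of_nonneg_right ?_ (sq_nonneg _)
    refine diag L Dm μ T ρ (fun c : Fin K0 → ℕ => (rad c : ℝ) / N1) hμ (W c) c (hσ0 c) ?_
      (hW0 c hc) (hWA c hc) (hWB c hc)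
    show (rad c : ℝ) / N1 < 2
    rw [div_lt_iff₀ hN1r]
    have h1 := hSR c hc
    have h2 : rad c < 2 * N1 := by omega
    exact_mod_cast h2

open Pool.Agent.Y826.Z (Ev)
open Pool.Agent.Y826.ZC

/-- all the numerical constants as variables -/
theorem dhl45W_aux (hL : S_LAYL3) (K N1 M R L Dm : ℕ) (F : (Fin (K + 1) → ℕ) → ℝ) (S : Finset (Fin K → ℕ))
    (ρ : (Fin K → ℕ) → ℕ)
    (r : ℕ) (μ : Fin r → ℝ) (T : Fin r → ℕ) (W : (Fin K → ℕ) → ℝ)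
    (h1 : 0 < N1) (h2 : M ≤ 2 * N1) (h3 : R < 2 * N1) (h4 : Dm < L) (h5 : L ≤ 2 * N1)
    (h6 : ∀ c, F c ≠ 0 → rad c ≤ R + 1) (h7 : S ⊆ Box K M) (h8 : ∀ i, ∀ c ∈ Box K M, UU M F i c ≠ 0 → c ∈ S)
    (h9 : ∀ c ∈ S, rad c ≤ R) (h10 : ∀ c ∈ S, ρ c ≤ L + Dm)
    (h11 : ∀ c ∈ S, ∀ c' ∈ S, ρ c + ρ c' ≤ 2 * L → Ev N1 c c')
    (h12 : ∀ l, 0 ≤ μ l) (h13 : ∀ c ∈ S, ρ c + Dm ≤ L → W c ≤ 1)
    (h14 : ∀ c ∈ S, L < ρ c + Dm → ρ c ≤ L →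
      W c ≤ 1 - 1 / (1 + 4 / (2 + (rad c : ℝ) / N1) * ∑ l, if T l ≤ L - ρ c then μ l else 0))
    (h15 : ∀ c ∈ S, L < ρ c → W c ≤ - (4 * (∑ l, if T l < ρ c - L then μ l else 0) / (2 - (rad c : ℝ) / N1)))
    (h16 : 4 * (N1 : ℝ) * ∑ c ∈ Box (K + 1) M, F c ^ 2 < ∑ i, ∑ c ∈ S, W c * UU M F i c ^ 2) :
    ∀ (A B : Fin (K + 1) → ℕ), AdmissibleL A B →
    ∀ᶠ X : ℝ in atTop, X / Real.log X ^ CC (K + 1) ≤ ((goodW A B X).card : ℝ) :=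
  hL h1 h2 h3 h4 h5 F h6 S h7 h8 h9 ρ h10 h11 r μ h12 T W h13 h14 h15 h16

end Pool.Agent.H12x.WL.FF

namespace Pool.Agent.H12x.WL.FF

open Pool.Agent.H95R2.BG Pool.Agent.H95R2.BG.LF
open Pool.Agent.Y826.Z (Ev)
open Pool.Agent.Y826.ZC
open Pool.Agent.Y876.FF (CC)

attribute [local irreducible] FF UU Box AA rho WW mu

/-- two of the `45` numbers `A i * n + B i` are prime for at least `X / (log X) ^ C` numbers `n ≤ 3 X` -/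
theorem dhl45W_of (hL : S_LAYL3) (hB : S_KB) (hC : S_KC) (hE : S_KE) : ∀ (A B : Fin 45 → ℕ), AdmissibleL A B →
    ∀ᶠ X : ℝ in atTop, X / Real.log X ^ CC 45 ≤ ((goodW A B X).card : ℝ) := by
  have a8 : ∀ (i : Fin (44 + 1)), ∀ c ∈ Box 44 16384, UU 16384 (FF (K := 44 + 1)) i c ≠ 0 → c ∈ AA := hB.2.2.1
  have a6 : ∀ c : Fin (44 + 1) → ℕ, FF c ≠ 0 → rad c ≤ 16427 + 1 := hB.1
  have a9 := hC.2.1
  have a10 := hC.2.2.1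
  have a13 := hC.2.2.2.1
  have a14 := hC.2.2.2.2.1
  have a15 := hC.2.2.2.2.2.1
  have a16 : 4 * ((15083 : ℕ) : ℝ) * ∑ c ∈ Box (44 + 1) 16384, FF c ^ 2 <
    ∑ i : Fin (44 + 1), ∑ c ∈ AA, WW c * UU 16384 FF i c ^ 2 := hE
  have a11 : ∀ c ∈ AA, ∀ c' ∈ AA, rho c + rho c' ≤ 2 * 15403 → Ev 15083 c c' :=
    fun c _ c' _ h => ev Pool.Agent.Y826.Z.comb2 c c' h
  have key := dhl45W_aux hL 44 15083 16384 16427 15403 1664 (FF (K := 44 + 1)) AA rho 52 mu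
    (fun l => 32 * (l : ℕ)) WW
    (by norm_num) (by norm_num) (by norm_num) (by norm_num) (by norm_num) a6 AA_sub a8
    a9 a10 a11 hC.1 a13 a14 a15 a16
  exact key

end Pool.Agent.H12x.WL.FF

namespace Pool.Agent.H12x.WL.FF

open Pool.Agent.H95R2.BG.LF

/-- two of the `45` numbers `A i * n + B i` are prime for at least `X / (log X) ^ C` numbers
`n ∈ (X, 2.72 X]` -/
theorem dhl45W (A B : Fin 45 → ℕ) (hadm : AdmissibleL A B) :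
    ∀ᶠ X : ℝ in atTop, X / Real.log X ^ Pool.Agent.Y876.FF.CC 45 ≤ ((goodW A B X).card : ℝ) :=
  dhl45W_of (layl3 (critl3 (Pool.Agent.Y826.ZG.p2l Pool.Agent.Y826.ZG.s_zz))) Pool.Agent.Y826.ZC.kb
    Pool.Agent.Y93.ZC.kc Pool.Agent.Y826.ZC.s_ke A B hadm

end Pool.Agent.H12x.WL.FF
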