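import Mathlib
import Pool.Agent.H12x.WL.Core
import Pool.Agent.H12x.WL.Lay45

/-!
# Among any 45 windows two are linked by an iterate of `x ↦ 2 x - 1` (helper12)
-/

set_option autoImplicit false

namespace Pool.Agent.H12x.WL

open Finset Filter Pool.Agent.H95R2.BG.LF

theorem base45 : ∃ D : ℕ, ∀ (A B : Fin 45 → ℕ), AdmissibleL A B → ∀ᶠ X : ℝ in atTop,
    X / Real.log X ^ D ≤ ((Pool.Agent.H12x.WL.FF.goodW A B X).card : ℝ) :=
  ⟨_, Pool.Agent.H12x.WL.FF.dhl45W⟩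

open Classical in
theorem pair45 (r D : ℕ) (hD : ∀ (A B : Fin r → ℕ), AdmissibleL A B → ∀ᶠ X : ℝ in atTop,
    X / Real.log X ^ D ≤ ((Pool.Agent.H12x.WL.FF.goodW A B X).card : ℝ))
    (e : Fin r → ℕ) (he : StrictMono e) : ∀ᶠ X : ℕ in atTop,
    ∃ i j : Fin r, i < j ∧ (X : ℝ) / Real.log X ^ (D + 1) ≤
      ((link (7 / 4) X (-1) (e i) (e j)).ncard : ℝ) := by
  have hadm : AdmissibleL (fun i : Fin r => 2 ^ e i) (fun _ : Fin r => 1) := by
    refine ⟨fun i => Nat.one_le_pow _ _ (by norm_num), fun i j hij h => ?_, fun p hp => ⟨0, fun i h => ?_⟩⟩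
    · rw [mul_one, mul_one] at h
      exact hij (he.injective (Nat.pow_right_injective (le_refl 2) h))
    · rw [mul_zero, zero_add] at h
      exact hp.one_lt.ne' (Nat.dvd_one.1 h)
  have h1 := tendsto_natCast_atTop_atTop.eventually
    (hD (fun i : Fin r => 2 ^ e i) (fun _ : Fin r => 1) hadm)
  have h2 : ∀ᶠ X : ℕ in atTop, ((r * r : ℕ) : ℝ) ≤ Real.log X :=
    (Real.tendsto_log_atTop.comp tendsto_natCast_atTop_atTop).eventually_ge_atTop _
  filter_upwards [h1, h2, eventually_ge_atTop 100] with X hX hL hX100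
  have hXr : (100 : ℝ) ≤ X := by exact_mod_cast hX100
  have hlog : 0 < Real.log X := Real.log_pos (by linarith)
  set G := Pool.Agent.H12x.WL.FF.goodW (fun i : Fin r => 2 ^ e i) (fun _ : Fin r => 1) (X : ℝ)
    with hG
  have hsub : G ⊆ ((univ : Finset (Fin r × Fin r)).filter (fun z => z.1 < z.2)).biUnion
      (fun z => G.filter (fun n => (2 ^ e z.1 * n + 1).Prime ∧ (2 ^ e z.2 * n + 1).Prime)) := by
    intro n hn
    have hn' := hn
    rw [hG] at hn'
    unfold Pool.Agent.H12x.WL.FF.goodW goodL at hn'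
    obtain ⟨h3, -, -⟩ := mem_filter.1 hn'
    obtain ⟨-, i, j, hij, hi, hj⟩ := mem_filter.1 h3
    rw [mem_biUnion]
    rcases lt_or_gt_of_ne hij with h | h
    · exact ⟨(i, j), mem_filter.2 ⟨mem_univ _, h⟩, mem_filter.2 ⟨hn, hi, hj⟩⟩
    · exact ⟨(j, i), mem_filter.2 ⟨mem_univ _, h⟩, mem_filter.2 ⟨hn, hj, hi⟩⟩
  by_contra hcon
  push Not at hcon
  have h3 : ∀ z ∈ (univ : Finset (Fin r × Fin r)).filter (fun z => z.1 < z.2),
      ((G.filter (fun n => (2 ^ e z.1 * n + 1).Prime ∧ (2 ^ e z.2 * n + 1).Prime)).card : ℝ) <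
        (X : ℝ) / Real.log X ^ (D + 1) := by
    intro z hz
    refine lt_of_le_of_lt ?_ (hcon z.1 z.2 (mem_filter.1 hz).2)
    rw [Nat.cast_le]
    refine link_ge _ (7 / 4) X (-1) (he (mem_filter.1 hz).2).le 1 1 (by ring) ?_
    intro n hn
    obtain ⟨hnG, hn1, hn2⟩ := mem_filter.1 hn
    rw [hG] at hnG
    unfold Pool.Agent.H12x.WL.FF.goodW at hnG
    obtain ⟨-, hn3, hn4⟩ := mem_filter.1 hnG
    have hc : ∀ k : ℕ, ((2 : ℤ) ^ k * n + 1).toNat = 2 ^ k * n + 1 := by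
      intro k
      have : ((2 : ℤ) ^ k * n + 1) = ((2 ^ k * n + 1 : ℕ) : ℤ) := by push_cast; rfl
      rw [this, Int.toNat_natCast]
    have hw : ∀ k : ℕ, (2 : ℝ) ^ k * X ≤ 2 ^ k * n + ((1 : ℤ) : ℝ) ∧
        (2 : ℝ) ^ k * n + ((1 : ℤ) : ℝ) ≤ (1 + 7 / 4) * (2 ^ k * X) := by
      intro k
      have h4 : (1 : ℝ) ≤ (2 : ℝ) ^ k := one_le_pow₀ (by norm_num)
      have h5 : (0 : ℝ) < (2 : ℝ) ^ k := by positivity
      push_cast
      constructor
      · have := mul_le_mul_of_nonneg_left hn3.le h5.le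
        linarith
      · have h6 := mul_le_mul_of_nonneg_left hn4 h5.le
        have h7 : (100 : ℝ) ≤ (2 : ℝ) ^ k * X := by nlinarith
        have h8 : (2 : ℝ) ^ k * (68 / 25 * X) = 68 / 25 * ((2 : ℝ) ^ k * X) := by ring
        rw [h8] at h6
        linarith
    rw [hc, hc]
    exact ⟨hn1, hn2, (hw _).1, (hw _).2, (hw _).1, (hw _).2⟩
  have h4 : (G.card : ℝ) ≤ ((r * r : ℕ) : ℝ) * ((X : ℝ) / Real.log X ^ (D + 1)) := by
    have h5 : (G.card : ℝ) ≤ ∑ z ∈ (univ : Finset (Fin r × Fin r)).filter (fun z => z.1 < z.2),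
        ((G.filter (fun n => (2 ^ e z.1 * n + 1).Prime ∧ (2 ^ e z.2 * n + 1).Prime)).card : ℝ) := by
      exact_mod_cast (card_le_card hsub).trans card_biUnion_le
    refine h5.trans ((sum_le_sum fun z hz => (h3 z hz).le).trans ?_)
    rw [sum_const, nsmul_eq_mul]
    refine mul_le_mul_of_nonneg_right ?_ (by positivity)
    have h6 : ((univ : Finset (Fin r × Fin r)).filter (fun z => z.1 < z.2)).card ≤ r * r :=
      (card_filter_le _ _).trans (by rw [card_univ, Fintype.card_prod, Fintype.card_fin])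
    exact_mod_cast h6
  have h5 : ((r * r : ℕ) : ℝ) * ((X : ℝ) / Real.log X ^ (D + 1)) ≤
      (X : ℝ) / Real.log X ^ D := by
    rw [pow_succ, ← div_div, mul_div_assoc', div_le_iff₀ hlog, mul_comm]
    exact mul_le_mul_of_nonneg_left hL (by positivity)
  -- strictness
  have h6 : G.Nonempty := by
    rw [← card_pos]
    have : (0 : ℝ) < G.card := lt_of_lt_of_le (by positivity) hX
    exact_mod_cast this
  obtain ⟨n, hn⟩ := h6
  obtain ⟨z, hz, -⟩ := mem_biUnion.1 (hsub hn)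
  have h7 : (G.card : ℝ) < ((r * r : ℕ) : ℝ) * ((X : ℝ) / Real.log X ^ (D + 1)) := by
    have h5 : (G.card : ℝ) ≤ ∑ z ∈ (univ : Finset (Fin r × Fin r)).filter (fun z => z.1 < z.2),
        ((G.filter (fun n => (2 ^ e z.1 * n + 1).Prime ∧ (2 ^ e z.2 * n + 1).Prime)).card : ℝ) := by
      exact_mod_cast (card_le_card hsub).trans card_biUnion_le
    refine h5.trans_lt ((sum_lt_sum (fun z hz => (h3 z hz).le) ⟨z, hz, h3 z hz⟩).trans_le ?_)
    rw [sum_const, nsmul_eq_mul]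
    refine mul_le_mul_of_nonneg_right ?_ (by positivity)
    have h6 : ((univ : Finset (Fin r × Fin r)).filter (fun z => z.1 < z.2)).card ≤ r * r :=
      (card_filter_le _ _).trans (by rw [card_univ, Fintype.card_prod, Fintype.card_fin])
    exact_mod_cast h6
  linarith

/-- **Among any 45 windows two are linked.** -/
theorem w45 : ∃ C : ℕ, ∀ E : Finset ℕ, 45 ≤ E.card → ∀ᶠ X : ℕ in atTop,
    ∃ i ∈ E, ∃ j ∈ E, i < j ∧ (X : ℝ) / Real.log X ^ C ≤
      ((link (7 / 4) X (-1) i j).ncard : ℝ) := by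
  obtain ⟨D, hD⟩ := base45
  refine ⟨D + 1, fun E hE => ?_⟩
  obtain ⟨F, hF, hFc⟩ := exists_subset_card_eq hE
  filter_upwards [pair45 45 D hD (F.orderEmbOfFin hFc) (F.orderEmbOfFin hFc).strictMono] with X hX
  obtain ⟨i, j, hij, h⟩ := hX
  exact ⟨_, hF (F.orderEmbOfFin_mem hFc i), _, hF (F.orderEmbOfFin_mem hFc j),
    (F.orderEmbOfFin hFc).strictMono hij, h⟩

end Pool.Agent.H12x.WL
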